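import Pool.Agent.Helper49.LT.StC

/-! MODULE KER of project LT: second order kernels. -/

set_option autoImplicit false

open MeasureTheory Set Filter Metric
open scoped Topology

namespace Pool.Agent.Helper97.LT

open Helper49.LT

/-! ### a Taylor formula of order two -/

/-- integrating a bound of the derivative -/
private theorem mvt_pow {E F : Type} [NormedAddCommGroup E] [NormedSpace ℝ E]
    [NormedAddCommGroup F] [NormedSpace ℝ F] (f : E → F) (r c : ℝ) (k : ℕ) (hc : 0 ≤ c)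
    (hd : ∀ v ∈ ball (0 : E) r, DifferentiableAt ℝ f v)
    (hb : ∀ v ∈ ball (0 : E) r, ‖fderiv ℝ f v‖ ≤ c * ‖v‖ ^ k) :
    ∀ v ∈ ball (0 : E) r, ‖f v - f 0‖ ≤ c * ‖v‖ ^ (k + 1) := by
  intro v hv
  rw [mem_ball_zero_iff] at hv
  have hsub : closedBall (0 : E) ‖v‖ ⊆ ball 0 r := closedBall_subset_ball hv
  have h1 := Convex.norm_image_sub_le_of_norm_fderiv_le (𝕜 := ℝ) (f := f)
    (s := closedBall (0 : E) ‖v‖) (C := c * ‖v‖ ^ k) (x := 0) (y := v)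
    (fun z hz => hd z (hsub hz))
    (fun z hz => (hb z (hsub hz)).trans (by
      rw [mem_closedBall_zero_iff] at hz
      exact mul_le_mul_of_nonneg_left (pow_le_pow_left₀ (norm_nonneg _) hz k) hc))
    (convex_closedBall _ _) (mem_closedBall_self (norm_nonneg _))
    (by rw [mem_closedBall_zero_iff])
  rw [sub_zero] at h1
  rw [pow_succ, ← mul_assoc]
  exact h1

private theorem taylor2 {E : Type} [NormedAddCommGroup E] [NormedSpace ℝ E] (G : E → ℝ) (r : ℝ)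
    (hr : 0 < r) (hG : ContDiffOn ℝ 3 G (ball 0 r)) :
    ∃ (c r' : ℝ) (B : E →L[ℝ] E →L[ℝ] ℝ), 0 ≤ c ∧ 0 < r' ∧ r' ≤ r ∧ ∀ v ∈ ball (0 : E) r',
      |G v - G 0 - fderiv ℝ G 0 v - B v v| ≤ c * ‖v‖ ^ 3 := by
  have ho : IsOpen (ball (0 : E) r) := isOpen_ball
  have h0 : (0 : E) ∈ ball (0 : E) r := mem_ball_self hr
  have hD : ContDiffOn ℝ 2 (fderiv ℝ G) (ball 0 r) :=
    hG.fderiv_of_isOpen ho (by norm_num)
  have hD2 : ContDiffOn ℝ 1 (fderiv ℝ (fderiv ℝ G)) (ball 0 r) :=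
    hD.fderiv_of_isOpen ho (by norm_num)
  have hd2 : DifferentiableAt ℝ (fderiv ℝ (fderiv ℝ G)) 0 :=
    (hD2.differentiableOn (by norm_num)).differentiableAt (ho.mem_nhds h0)
  have hO : (fun x => fderiv ℝ (fderiv ℝ G) x - fderiv ℝ (fderiv ℝ G) 0) =O[𝓝 (0 : E)]
      (fun x => x - 0) :=
    DifferentiableAt.isBigO_sub (𝕜 := ℝ) (E := E) (F := E →L[ℝ] E →L[ℝ] ℝ) hd2
  obtain ⟨c, hc⟩ := hO.bound
  obtain ⟨r₁, hr₁, hb⟩ := Metric.eventually_nhds_iff_ball.1 hc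
  set r' : ℝ := min r₁ r with hr'
  have hr'0 : 0 < r' := lt_min hr₁ hr
  have hsub : ball (0 : E) r' ⊆ ball 0 r := ball_subset_ball (min_le_right _ _)
  set c' : ℝ := max c 0 with hc'
  have hc'0 : 0 ≤ c' := le_max_right _ _
  set B2 := fderiv ℝ (fderiv ℝ G) 0 with hB2
  have hdG : ∀ v ∈ ball (0 : E) r', HasFDerivAt G (fderiv ℝ G v) v := fun v hv =>
    ((hG.differentiableOn (by norm_num)).differentiableAt (ho.mem_nhds (hsub hv))).hasFDerivAt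
  have hdD : ∀ v ∈ ball (0 : E) r', HasFDerivAt (fderiv ℝ G) (fderiv ℝ (fderiv ℝ G) v) v :=
    fun v hv =>
    ((hD.differentiableOn (by norm_num)).differentiableAt (ho.mem_nhds (hsub hv))).hasFDerivAt
  -- first step
  have hψ : ∀ v ∈ ball (0 : E) r', HasFDerivAt (fun v => fderiv ℝ G v - B2 v)
      (fderiv ℝ (fderiv ℝ G) v - B2) v := fun v hv => (hdD v hv).sub B2.hasFDerivAt
  have h1 := mvt_pow (fun v => fderiv ℝ G v - B2 v) r' c' 1 hc'0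
    (fun v hv => (hψ v hv).differentiableAt)
    (fun v hv => by
      rw [(hψ v hv).fderiv]
      have h2 := hb v (ball_subset_ball (min_le_left _ _) hv)
      rw [sub_zero] at h2
      refine h2.trans ?_
      rw [pow_one]
      exact mul_le_mul_of_nonneg_right (le_max_left _ _) (norm_nonneg _))
  -- symmetry
  have hsym : ∀ v w : E, B2 v w = B2 w v := by
    intro v w
    have h3 : IsSymmSndFDerivAt ℝ G 0 := by
      apply (hG.contDiffAt (ho.mem_nhds h0)).isSymmSndFDerivAt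
      rw [minSmoothness_of_isRCLikeNormedField]
      norm_num
    exact h3 v w
  have hψ2 : ∀ v ∈ ball (0 : E) r', HasFDerivAt
      (fun v => G v - fderiv ℝ G 0 v - ((1 / 2 : ℝ) • B2) v v)
      (fderiv ℝ G v - fderiv ℝ G 0 - B2 v) v := by
    intro v hv
    have h4 : HasFDerivAt (fun v => ((1 / 2 : ℝ) • B2) v v)
        (((1 / 2 : ℝ) • B2) v + (((1 / 2 : ℝ) • B2).flip v)) v := by
      have h5 := ((1 / 2 : ℝ) • B2).hasFDerivAt (x := v)
      have h6 := h5.clm_apply (hasFDerivAt_id v)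
      refine h6.congr_fderiv ?_
      ext w
      simp
    have h7 := ((hdG v hv).sub (fderiv ℝ G 0).hasFDerivAt).sub h4
    refine h7.congr_fderiv ?_
    ext w
    simp only [sub_apply, add_apply, smul_apply, ContinuousLinearMap.flip_apply, smul_eq_mul]
    rw [hsym w v]
    ring
  have h8 := mvt_pow (fun v => G v - fderiv ℝ G 0 v - ((1 / 2 : ℝ) • B2) v v) r' c' 2 hc'0
    (fun v hv => (hψ2 v hv).differentiableAt)
    (fun v hv => by
      rw [(hψ2 v hv).fderiv]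
      have h9 := h1 v hv
      simp only [map_zero, sub_zero] at h9
      have h10 : fderiv ℝ G v - fderiv ℝ G 0 - B2 v = fderiv ℝ G v - B2 v - fderiv ℝ G 0 := by
        abel
      rw [h10]
      exact h9)
  refine ⟨c', r', (1 / 2 : ℝ) • B2, hc'0, hr'0, min_le_right _ _, ?_⟩
  intro v hv
  have h11 := h8 v hv
  simp only [map_zero, sub_zero] at h11
  rw [Real.norm_eq_abs] at h11
  have h12 : G v - G 0 - fderiv ℝ G 0 v - ((1 / 2 : ℝ) • B2) v v =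
      G v - fderiv ℝ G 0 v - ((1 / 2 : ℝ) • B2) v v - G 0 := by ring
  rw [h12]
  exact h11

/-! ### the rotations as linear maps -/

/-- the generator -/
private noncomputable def XL : ℂ × ℂ →L[ℝ] ℂ × ℂ :=
  ((-3 * Complex.I) • ContinuousLinearMap.fst ℝ ℂ ℂ).prod
    ((-5 * Complex.I) • ContinuousLinearMap.snd ℝ ℂ ℂ)

private noncomputable def RL (t : ℝ) : ℂ × ℂ →L[ℝ] ℂ × ℂ :=
  ((ee (-3 * t)) • ContinuousLinearMap.fst ℝ ℂ ℂ).prod
    ((ee (-5 * t)) • ContinuousLinearMap.snd ℝ ℂ ℂ)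

private theorem XL_apply (v : ℂ × ℂ) : XL v = (-3 * Complex.I * v.1, -5 * Complex.I * v.2) := by
  simp [XL]

private theorem RL_apply (t : ℝ) (v : ℂ × ℂ) : RL t v = rot t v := by
  simp [RL, rot]

private theorem RL_cancel (σ : ℝ) (v : ℂ × ℂ) : RL (-σ) (RL σ v) = v := by
  rw [RL_apply, RL_apply, ← rot_add, neg_add_cancel, rot_zero]

private theorem norm_RL (t : ℝ) (v : ℂ × ℂ) : ‖RL t v‖ = ‖v‖ := by
  rw [RL_apply, norm_rot]

private theorem norm_XL (v : ℂ × ℂ) : ‖XL v‖ ≤ 5 * ‖v‖ := by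
  rw [XL_apply, Prod.norm_def]
  apply max_le
  · simp only [norm_mul, norm_neg, Complex.norm_I, mul_one]
    have h1 : ‖(3 : ℂ)‖ = 3 := by simp
    rw [h1]
    have := norm_fst_le v
    nlinarith [norm_nonneg v]
  · simp only [norm_mul, norm_neg, Complex.norm_I, mul_one]
    have h1 : ‖(5 : ℂ)‖ = 5 := by simp
    rw [h1]
    have := norm_snd_le v
    nlinarith [norm_nonneg v]

private theorem ee_taylor (a : ℝ) (ha : |a| ≤ 1) : ‖ee a - 1 - (a : ℂ) * Complex.I‖ ≤ a ^ 2 := by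
  have h1 : ‖(a : ℂ) * Complex.I‖ = |a| := by simp
  have h2 := Complex.norm_exp_sub_one_sub_id_le (x := (a : ℂ) * Complex.I) (by rw [h1]; exact ha)
  rw [h1, sq_abs] at h2
  exact h2

private theorem rot_taylor (δ : ℝ) (v : ℂ × ℂ) (hδ : |δ| ≤ 1 / 5) :
    ‖rot δ v - v - δ • XL v‖ ≤ 25 * δ ^ 2 * ‖v‖ := by
  have h3 := ee_taylor (-3 * δ) (by rw [abs_mul]; norm_num; linarith)
  have h5 := ee_taylor (-5 * δ) (by rw [abs_mul]; norm_num; linarith)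
  rw [Prod.norm_def]
  apply max_le
  · have e : (rot δ v - v - δ • XL v).1 =
        (ee (-3 * δ) - 1 - ((-3 * δ : ℝ) : ℂ) * Complex.I) * v.1 := by
      rw [XL_apply]
      simp [rot]
      ring
    rw [e, norm_mul]
    have := norm_fst_le v
    have h6 := mul_le_mul h3 this (norm_nonneg _) (by positivity)
    nlinarith [mul_nonneg (sq_nonneg δ) (norm_nonneg v)]
  · have e : (rot δ v - v - δ • XL v).2 =
        (ee (-5 * δ) - 1 - ((-5 * δ : ℝ) : ℂ) * Complex.I) * v.2 := by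
      rw [XL_apply]
      simp [rot]
      ring
    rw [e, norm_mul]
    have := norm_snd_le v
    have h6 := mul_le_mul h5 this (norm_nonneg _) (by positivity)
    nlinarith [mul_nonneg (sq_nonneg δ) (norm_nonneg v)]

/-- the transformation `rot (s v) v` to the second order -/
private theorem phi_taylor (s : ℂ × ℂ → ℝ) (S₁ : ℂ × ℂ →L[ℝ] ℝ) (σ₀ C₀ r : ℝ) (hr : 0 < r)
    (hs : ∀ v ∈ ball (0 : ℂ × ℂ) r, |s v - σ₀ - S₁ v| ≤ C₀ * ‖v‖ ^ 2) :
    ∃ c r' : ℝ, 0 ≤ c ∧ 0 < r' ∧ r' ≤ r ∧ ∀ v ∈ ball (0 : ℂ × ℂ) r',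
      ‖rot (s v) v - RL σ₀ v‖ ≤ c * ‖v‖ ^ 2 ∧
      ‖rot (s v) v - RL σ₀ v - S₁ v • XL (RL σ₀ v)‖ ≤ c * ‖v‖ ^ 3 := by
  set D : ℝ := ‖S₁‖ + |C₀| with hD
  have hD0 : 0 ≤ D := by positivity
  set r' : ℝ := min r (min 1 (1 / (5 * (D + 1)))) with hr'
  have hr'0 : 0 < r' := lt_min hr (lt_min one_pos (by positivity))
  refine ⟨25 * D ^ 2 + 5 * |C₀| + 5 * ‖S₁‖, r', by positivity, hr'0, min_le_left _ _, ?_⟩
  intro v hv
  have hv1 := mem_ball_zero_iff.1 hv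
  have hvr : v ∈ ball (0 : ℂ × ℂ) r := ball_subset_ball (min_le_left _ _) hv
  have hn0 := norm_nonneg v
  have hn1 : ‖v‖ ≤ 1 := hv1.le.trans ((min_le_right _ _).trans (min_le_left _ _))
  have hn2 : ‖v‖ ≤ 1 / (5 * (D + 1)) :=
    hv1.le.trans ((min_le_right _ _).trans (min_le_right _ _))
  have h1 : |s v - σ₀ - S₁ v| ≤ |C₀| * ‖v‖ ^ 2 := (hs v hvr).trans
    (mul_le_mul_of_nonneg_right (le_abs_self _) (by positivity))
  have h2 : |S₁ v| ≤ ‖S₁‖ * ‖v‖ := by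
    have := S₁.le_opNorm v
    rwa [Real.norm_eq_abs] at this
  set δ : ℝ := s v - σ₀ with hδ
  have h3 : |δ| ≤ D * ‖v‖ := by
    have h4 : |δ| ≤ |δ - S₁ v| + |S₁ v| := by
      have := abs_add_le (δ - S₁ v) (S₁ v)
      simpa using this
    have h5 : |C₀| * ‖v‖ ^ 2 ≤ |C₀| * ‖v‖ := by
      apply mul_le_mul_of_nonneg_left _ (abs_nonneg _)
      nlinarith
    rw [hD]
    linarith [add_mul ‖S₁‖ |C₀| ‖v‖]
  have h4 : |δ| ≤ 1 / 5 := by
    refine h3.trans ?_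
    calc D * ‖v‖ ≤ D * (1 / (5 * (D + 1))) := mul_le_mul_of_nonneg_left hn2 hD0
      _ ≤ 1 / 5 := by
        rw [mul_one_div, div_le_div_iff₀ (by positivity) (by norm_num)]
        linarith
  have e1 : rot (s v) v = rot δ (RL σ₀ v) := by
    rw [RL_apply, ← rot_add]
    congr 1
    rw [hδ]; ring
  have h5 := rot_taylor δ (RL σ₀ v) h4
  rw [norm_RL, ← e1] at h5
  have h6 : δ ^ 2 ≤ D ^ 2 * ‖v‖ ^ 2 := by
    rw [← sq_abs δ, ← mul_pow]
    exact pow_le_pow_left₀ (abs_nonneg _) h3 2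
  have h7 : 25 * δ ^ 2 * ‖v‖ ≤ 25 * D ^ 2 * ‖v‖ ^ 3 := by
    have := mul_le_mul_of_nonneg_right h6 hn0
    nlinarith
  have hX : ‖XL (RL σ₀ v)‖ ≤ 5 * ‖v‖ := by
    have := norm_XL (RL σ₀ v)
    rwa [norm_RL] at this
  have h8 : ‖rot (s v) v - RL σ₀ v - S₁ v • XL (RL σ₀ v)‖ ≤
      (25 * D ^ 2 + 5 * |C₀|) * ‖v‖ ^ 3 := by
    have e2 : rot (s v) v - RL σ₀ v - S₁ v • XL (RL σ₀ v) =
        (rot (s v) v - RL σ₀ v - δ • XL (RL σ₀ v)) + (δ - S₁ v) • XL (RL σ₀ v) := by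
      rw [sub_smul δ (S₁ v) (XL (RL σ₀ v))]; abel
    rw [e2]
    refine (norm_add_le _ _).trans ?_
    rw [norm_smul, Real.norm_eq_abs]
    have h9 : |δ - S₁ v| * ‖XL (RL σ₀ v)‖ ≤ (|C₀| * ‖v‖ ^ 2) * (5 * ‖v‖) :=
      mul_le_mul h1 hX (norm_nonneg _) (by positivity)
    calc ‖rot (s v) v - RL σ₀ v - δ • XL (RL σ₀ v)‖ + |δ - S₁ v| * ‖XL (RL σ₀ v)‖
        ≤ 25 * D ^ 2 * ‖v‖ ^ 3 + (|C₀| * ‖v‖ ^ 2) * (5 * ‖v‖) :=
          add_le_add (h5.trans h7) h9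
      _ = (25 * D ^ 2 + 5 * |C₀|) * ‖v‖ ^ 3 := by ring
  have hv32 : ‖v‖ ^ 3 ≤ ‖v‖ ^ 2 := pow_le_pow_of_le_one hn0 hn1 (by norm_num)
  refine ⟨?_, ?_⟩
  · have e3 : rot (s v) v - RL σ₀ v =
        (rot (s v) v - RL σ₀ v - S₁ v • XL (RL σ₀ v)) + S₁ v • XL (RL σ₀ v) := by abel
    rw [e3]
    refine (norm_add_le _ _).trans ?_
    rw [norm_smul, Real.norm_eq_abs]
    have h9 : |S₁ v| * ‖XL (RL σ₀ v)‖ ≤ (‖S₁‖ * ‖v‖) * (5 * ‖v‖) :=
      mul_le_mul h2 hX (norm_nonneg _) (by positivity)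
    have h10 : (25 * D ^ 2 + 5 * |C₀|) * ‖v‖ ^ 3 ≤ (25 * D ^ 2 + 5 * |C₀|) * ‖v‖ ^ 2 :=
      mul_le_mul_of_nonneg_left hv32 (by positivity)
    calc _ ≤ (25 * D ^ 2 + 5 * |C₀|) * ‖v‖ ^ 2 + (‖S₁‖ * ‖v‖) * (5 * ‖v‖) :=
          add_le_add (h8.trans h10) h9
      _ = _ := by ring
  · refine h8.trans ?_
    apply mul_le_mul_of_nonneg_right _ (by positivity)
    have := norm_nonneg S₁
    linarith

/-! ### the kernel -/

private theorem hasF_of_quad (f : ℂ × ℂ → ℝ) (L : ℂ × ℂ →L[ℝ] ℝ) (f0 C r : ℝ) (hr : 0 < r)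
    (hf0 : f 0 = f0) (h : ∀ v ∈ ball (0 : ℂ × ℂ) r, |f v - f0 - L v| ≤ C * ‖v‖ ^ 2) :
    HasFDerivAt f L 0 := by
  rw [hasFDerivAt_iff_isLittleO_nhds_zero]
  have h1 : (fun h : ℂ × ℂ => f (0 + h) - f 0 - L h) =O[𝓝 0] fun h : ℂ × ℂ => ‖h‖ ^ 2 := by
    apply Asymptotics.IsBigO.of_bound C
    have h2 : ∀ᶠ v in 𝓝 (0 : ℂ × ℂ), v ∈ ball (0 : ℂ × ℂ) r := ball_mem_nhds 0 hr
    filter_upwards [h2] with v hv
    rw [zero_add, hf0, Real.norm_eq_abs, Real.norm_eq_abs, abs_of_nonneg (sq_nonneg ‖v‖)]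
    exact h v hv
  exact h1.trans_isLittleO (Asymptotics.isLittleO_norm_pow_id (by norm_num))

/-- the linear part of the kernel -/
private noncomputable def AL (K₁ S₁ : ℂ × ℂ →L[ℝ] ℝ) (σ₀ : ℝ) : ℂ × ℂ →L[ℝ] ℝ :=
  K₁.comp (RL (-σ₀)) - S₁.comp (XL.comp (RL (-σ₀)))

private theorem AL_apply (K₁ S₁ : ℂ × ℂ →L[ℝ] ℝ) (σ₀ : ℝ) (y : ℂ × ℂ) :
    AL K₁ S₁ σ₀ y = K₁ (RL (-σ₀) y) - S₁ (XL (RL (-σ₀) y)) := by
  simp [AL]

private theorem kernel (κ s : ℂ × ℂ → ℝ) (r σ₀ C₀ : ℝ) (K₁ S₁ : ℂ × ℂ →L[ℝ] ℝ) (hr : 0 < r)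
    (hκ : ContDiffOn ℝ 4 κ (ball 0 r)) (hs : ContDiffOn ℝ 4 s (ball 0 r)) (hκ0 : κ 0 = 1)
    (hs0 : s 0 = σ₀)
    (hκ1 : ∀ v ∈ ball (0 : ℂ × ℂ) r, |κ v - 1 - K₁ v| ≤ C₀ * ‖v‖ ^ 2)
    (hs1 : ∀ v ∈ ball (0 : ℂ × ℂ) r, |s v - σ₀ - S₁ v| ≤ C₀ * ‖v‖ ^ 2) :
    ∃ (c r₁ : ℝ) (B : ℂ × ℂ →L[ℝ] ℂ × ℂ →L[ℝ] ℝ), 0 ≤ c ∧ 0 < r₁ ∧ r₁ ≤ r ∧
      ∀ v ∈ ball (0 : ℂ × ℂ) r₁, 1 / 2 ≤ 1 + fderiv ℝ s v (XL v) ∧
      |κ v - (1 + fderiv ℝ s v (XL v)) * (1 + AL K₁ S₁ σ₀ (rot (s v) v)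
        + B (rot (s v) v) (rot (s v) v))| ≤ (1 + fderiv ℝ s v (XL v)) * (c * ‖v‖ ^ 3) := by
  have ho : IsOpen (ball (0 : ℂ × ℂ) r) := isOpen_ball
  have h0 : (0 : ℂ × ℂ) ∈ ball (0 : ℂ × ℂ) r := mem_ball_self hr
  have hDs : ContDiffOn ℝ 3 (fderiv ℝ s) (ball 0 r) := hs.fderiv_of_isOpen ho (by norm_num)
  have hg3 : ContDiffOn ℝ 3 (fun v => fderiv ℝ s v (XL v)) (ball 0 r) :=
    hDs.clm_apply XL.contDiff.contDiffOn
  set g : ℂ × ℂ → ℝ := fun v => fderiv ℝ s v (XL v) with hg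
  have hg0 : g 0 = 0 := by simp [hg]
  have hgc : ContinuousAt g 0 := (hg3.continuousOn.continuousAt (ho.mem_nhds h0))
  obtain ⟨r₂, hr₂, hg2⟩ := Metric.continuousAt_iff.1 hgc (1 / 2) (by norm_num)
  set r₃ : ℝ := min r₂ r with hr₃
  have hr₃0 : 0 < r₃ := lt_min hr₂ hr
  have hsub3 : ball (0 : ℂ × ℂ) r₃ ⊆ ball 0 r := ball_subset_ball (min_le_right _ _)
  have hghalf : ∀ v ∈ ball (0 : ℂ × ℂ) r₃, 1 / 2 ≤ 1 + g v := by
    intro v hv
    have h1 : dist v 0 < r₂ := lt_of_lt_of_le hv (min_le_left _ _)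
    have h2 := hg2 h1
    rw [hg0, Real.dist_eq, sub_zero] at h2
    have := neg_abs_le (g v)
    linarith
  set G : ℂ × ℂ → ℝ := fun v => κ v / (1 + g v) with hG
  have hG3 : ContDiffOn ℝ 3 G (ball 0 r₃) := by
    apply ContDiffOn.div
    · exact (hκ.mono hsub3).of_le (by norm_num)
    · exact contDiffOn_const.add (hg3.mono hsub3)
    · intro v hv
      have := hghalf v hv
      linarith
  have hG0 : G 0 = 1 := by simp [hG, hg0, hκ0]
  obtain ⟨c₀, r₄, B₀, hc₀, hr₄, hr₄3, hTay⟩ := taylor2 G r₃ hr₃0 hG3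
  obtain ⟨c₁, r₅, hc₁, hr₅, hr₅r, hphi⟩ := phi_taylor s S₁ σ₀ C₀ r hr hs1
  -- first derivatives
  have hκd : HasFDerivAt κ K₁ 0 := hasF_of_quad κ K₁ 1 C₀ r hr hκ0 hκ1
  have hsd : HasFDerivAt s S₁ 0 := hasF_of_quad s S₁ σ₀ C₀ r hr hs0 hs1
  have hgd : HasFDerivAt g (S₁.comp XL) 0 := by
    have h1 : DifferentiableAt ℝ (fderiv ℝ s) 0 :=
      (hDs.differentiableOn (by norm_num)).differentiableAt (ho.mem_nhds h0)
    have h2 := h1.hasFDerivAt.clm_apply (XL.hasFDerivAt (x := (0 : ℂ × ℂ)))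
    refine h2.congr_fderiv ?_
    rw [hsd.fderiv, map_zero]
    ext w <;> simp
  have hGd : HasFDerivAt G (fderiv ℝ G 0) 0 :=
    ((hG3.differentiableOn (by norm_num)).differentiableAt
      (isOpen_ball.mem_nhds (mem_ball_self hr₃0))).hasFDerivAt
  have hL : fderiv ℝ G 0 = K₁ - S₁.comp XL := by
    have h1 := hGd.mul (hgd.const_add 1)
    have h2 : κ =ᶠ[𝓝 0] fun v => G v * (1 + g v) := by
      filter_upwards [ball_mem_nhds (0 : ℂ × ℂ) hr₃0] with v hv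
      have h3 : 1 + g v ≠ 0 := by
        have := hghalf v hv
        linarith
      rw [hG]
      field_simp
    have h4 := (h1.congr_of_eventuallyEq h2).unique hκd
    rw [hG0, hg0, add_zero, one_smul, one_smul] at h4
    rw [← h4]
    abel
  -- the quadratic form
  set A := AL K₁ S₁ σ₀ with hA
  set B : ℂ × ℂ →L[ℝ] ℂ × ℂ →L[ℝ] ℝ :=
    B₀.bilinearComp (RL (-σ₀)) (RL (-σ₀)) - (S₁.comp (RL (-σ₀))).smulRight (A.comp XL) with hB
  have hBa : ∀ y z, B y z = B₀ (RL (-σ₀) y) (RL (-σ₀) z) - S₁ (RL (-σ₀) y) * A (XL z) := by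
    intro y z
    simp [hB]
  set r₁ : ℝ := min r₄ r₅ with hr₁
  refine ⟨c₀ + ‖A‖ * c₁ + 2 * (‖B‖ * c₁), r₁, B, by positivity, lt_min hr₄ hr₅,
    (min_le_right _ _).trans hr₅r, ?_⟩
  intro v hv
  have hv4 : v ∈ ball (0 : ℂ × ℂ) r₄ := ball_subset_ball (min_le_left _ _) hv
  have hv5 : v ∈ ball (0 : ℂ × ℂ) r₅ := ball_subset_ball (min_le_right _ _) hv
  have hv3 : v ∈ ball (0 : ℂ × ℂ) r₃ := ball_subset_ball hr₄3 hv4
  have hpos := hghalf v hv3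
  have hpos0 : 0 < 1 + g v := by linarith
  refine ⟨hpos, ?_⟩
  obtain ⟨hp1, hp2⟩ := hphi v hv5
  have hT := hTay v hv4
  rw [hG0, hL] at hT
  set y := rot (s v) v with hy
  set a := RL σ₀ v with ha
  have hny : ‖y‖ = ‖v‖ := by rw [hy, norm_rot]
  have hna : ‖a‖ = ‖v‖ := by rw [ha, norm_RL]
  have hAa : A a = K₁ v - S₁ (XL v) := by
    rw [hA, AL_apply, ha, RL_cancel]
  have e1 : A y = A a + S₁ v * A (XL a) + A (y - a - S₁ v • XL a) := by
    simp only [map_sub, map_smul, smul_eq_mul]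
    ring
  have e2 : B y y = B a a + B (y - a) y + B a (y - a) := by
    simp only [map_sub, sub_apply]
    ring
  have e3 : B a a = B₀ v v - S₁ v * A (XL a) := by
    rw [hBa, ha, RL_cancel]
  have e4 : (K₁ - S₁.comp XL) v = K₁ v - S₁ (XL v) := by simp
  rw [e4] at hT
  have b1 : |A (y - a - S₁ v • XL a)| ≤ ‖A‖ * (c₁ * ‖v‖ ^ 3) := by
    have := A.le_opNorm (y - a - S₁ v • XL a)
    rw [Real.norm_eq_abs] at this
    exact this.trans (mul_le_mul_of_nonneg_left hp2 (norm_nonneg _))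
  have b2 : |B (y - a) y| ≤ ‖B‖ * (c₁ * ‖v‖ ^ 2) * ‖v‖ := by
    have := B.le_opNorm₂ (y - a) y
    rw [Real.norm_eq_abs, hny] at this
    exact this.trans (mul_le_mul_of_nonneg_right
      (mul_le_mul_of_nonneg_left hp1 (by positivity)) (norm_nonneg _))
  have b3 : |B a (y - a)| ≤ ‖B‖ * ‖v‖ * (c₁ * ‖v‖ ^ 2) := by
    have := B.le_opNorm₂ a (y - a)
    rw [Real.norm_eq_abs, hna] at this
    exact this.trans (mul_le_mul_of_nonneg_left hp1 (by positivity))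
  have key : |G v - (1 + A y + B y y)| ≤ (c₀ + ‖A‖ * c₁ + 2 * (‖B‖ * c₁)) * ‖v‖ ^ 3 := by
    have e5 : G v - (1 + A y + B y y) = (G v - 1 - (K₁ v - S₁ (XL v)) - B₀ v v) -
        A (y - a - S₁ v • XL a) - B (y - a) y - B a (y - a) := by
      rw [e1, e2, e3, hAa]
      ring
    rw [e5]
    have t1 := abs_sub (G v - 1 - (K₁ v - S₁ (XL v)) - B₀ v v) (A (y - a - S₁ v • XL a))
    have t2 := abs_sub ((G v - 1 - (K₁ v - S₁ (XL v)) - B₀ v v) - A (y - a - S₁ v • XL a))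
      (B (y - a) y)
    have t3 := abs_sub ((G v - 1 - (K₁ v - S₁ (XL v)) - B₀ v v) - A (y - a - S₁ v • XL a) -
      B (y - a) y) (B a (y - a))
    calc _ ≤ c₀ * ‖v‖ ^ 3 + ‖A‖ * (c₁ * ‖v‖ ^ 3) + ‖B‖ * (c₁ * ‖v‖ ^ 2) * ‖v‖ +
          ‖B‖ * ‖v‖ * (c₁ * ‖v‖ ^ 2) := by linarith
      _ = _ := by ring
  have e6 : κ v - (1 + g v) * (1 + A y + B y y) = (1 + g v) * (G v - (1 + A y + B y y)) := by
    have h3 : κ v = (1 + g v) * G v := by
      rw [hG]; field_simp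
    rw [mul_sub, ← h3]
  show |κ v - (1 + g v) * (1 + A y + B y y)| ≤ (1 + g v) * _
  rw [e6, abs_mul, abs_of_pos hpos0]
  exact mul_le_mul_of_nonneg_left key hpos0.le

/-! ### the integral of a quadratic form -/

private theorem int3 (f g h : ℝ → ℝ) (hf : Continuous f) (hg : Continuous g) (hh : Continuous h)
    (a b : ℝ) : ∫ t in a..b, (f t + g t + h t) =
      (∫ t in a..b, f t) + (∫ t in a..b, g t) + ∫ t in a..b, h t := by
  rw [intervalIntegral.integral_add (f := fun t => f t + g t)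
    ((hf.add hg).intervalIntegrable _ _) (hh.intervalIntegrable _ _),
    intervalIntegral.integral_add (hf.intervalIntegrable _ _) (hg.intervalIntegrable _ _)]

private theorem split_pair (y : ℂ × ℂ) : y = (y.1, (0 : ℂ)) + ((0 : ℂ), y.2) := by simp

private theorem fst_basis (z : ℂ) :
    ((z, (0 : ℂ)) : ℂ × ℂ) = z.re • ((1 : ℂ), (0 : ℂ)) + z.im • (Complex.I, (0 : ℂ)) := by
  apply Prod.ext
  · simp only [Prod.fst_add, Prod.smul_fst, Complex.real_smul, mul_one]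
    exact (Complex.re_add_im z).symm
  · simp

private theorem quad_int (B : ℂ × ℂ →L[ℝ] ℂ × ℂ →L[ℝ] ℝ) : ∃ C : ℝ, 0 ≤ C ∧
    ∀ (x : ℂ × ℂ) (w : ℝ → ℝ), Continuous w → ∫ t in (0 : ℝ)..(2 * Real.pi), w t = 0 →
    |∫ t in (0 : ℝ)..(2 * Real.pi), w t * B (rot t x) (rot t x)| ≤
      C * (‖x.1‖ ^ 2 * ‖wf w 6‖ + (‖x.1‖ * ‖x.2‖ + ‖x.2‖ ^ 2) * n1 w) := by
  set p11 := B ((1 : ℂ), (0 : ℂ)) ((1 : ℂ), (0 : ℂ)) with h11
  set p12 := B ((1 : ℂ), (0 : ℂ)) (Complex.I, (0 : ℂ)) with h12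
  set p21 := B (Complex.I, (0 : ℂ)) ((1 : ℂ), (0 : ℂ)) with h21
  set p22 := B (Complex.I, (0 : ℂ)) (Complex.I, (0 : ℂ)) with h22
  set c₁ : ℝ := (p11 + p22) / 2 with hc₁
  set c₂ : ℂ := ⟨(p11 - p22) / 2, -(p12 + p21) / 2⟩ with hc₂
  set R : ℂ × ℂ → ℝ := fun y => B (y.1, (0 : ℂ)) ((0 : ℂ), y.2) + B ((0 : ℂ), y.2) (y.1, (0 : ℂ)) +
    B ((0 : ℂ), y.2) ((0 : ℂ), y.2) with hR
  have hP : ∀ y : ℂ × ℂ, B y y = c₁ * ‖y.1‖ ^ 2 + (c₂ * y.1 ^ 2).re + R y := by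
    intro y
    have e1 : B y y = B (y.1, (0 : ℂ)) (y.1, (0 : ℂ)) + R y := by
      conv_lhs => rw [split_pair y]
      simp only [map_add, add_apply, hR]
      ring
    have e2 : B (y.1, (0 : ℂ)) (y.1, (0 : ℂ)) =
        y.1.re ^ 2 * p11 + y.1.re * y.1.im * (p12 + p21) + y.1.im ^ 2 * p22 := by
      rw [fst_basis y.1]
      simp only [map_add, map_smul, add_apply, smul_apply, smul_eq_mul, ← h11, ← h12, ← h21,
        ← h22]
      ring
    have e3 : ‖y.1‖ ^ 2 = y.1.re ^ 2 + y.1.im ^ 2 := by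
      rw [← Complex.normSq_eq_norm_sq, Complex.normSq_apply]; ring
    have e4 : (c₂ * y.1 ^ 2).re = (p11 - p22) / 2 * (y.1.re ^ 2 - y.1.im ^ 2) +
        (p12 + p21) / 2 * (2 * y.1.re * y.1.im) := by
      rw [hc₂, Complex.mul_re, sq y.1, Complex.mul_re, Complex.mul_im]
      ring
    rw [e1, e2, e3, e4, hc₁]
    ring
  have hnf : ∀ z : ℂ, ‖((z, (0 : ℂ)) : ℂ × ℂ)‖ = ‖z‖ := by intro z; simp [Prod.norm_def]
  have hns : ∀ z : ℂ, ‖(((0 : ℂ), z) : ℂ × ℂ)‖ = ‖z‖ := by intro z; simp [Prod.norm_def]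
  have hRb : ∀ y : ℂ × ℂ, |R y| ≤ 2 * ‖B‖ * (‖y.1‖ * ‖y.2‖ + ‖y.2‖ ^ 2) := by
    intro y
    have t1 := B.le_opNorm₂ (y.1, (0 : ℂ)) ((0 : ℂ), y.2)
    have t2 := B.le_opNorm₂ ((0 : ℂ), y.2) (y.1, (0 : ℂ))
    have t3 := B.le_opNorm₂ ((0 : ℂ), y.2) ((0 : ℂ), y.2)
    rw [Real.norm_eq_abs, hnf, hns] at t1 t2
    rw [Real.norm_eq_abs, hns] at t3
    have t4 := abs_add_le (B (y.1, (0 : ℂ)) ((0 : ℂ), y.2) + B ((0 : ℂ), y.2) (y.1, (0 : ℂ)))
      (B ((0 : ℂ), y.2) ((0 : ℂ), y.2))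
    have t5 := abs_add_le (B (y.1, (0 : ℂ)) ((0 : ℂ), y.2)) (B ((0 : ℂ), y.2) (y.1, (0 : ℂ)))
    have t6 : 0 ≤ ‖B‖ * ‖y.2‖ ^ 2 := by positivity
    show |_ + _ + _| ≤ _
    nlinarith
  have hRc : Continuous R := by
    rw [hR]
    fun_prop
  refine ⟨‖c₂‖ + 2 * ‖B‖, by positivity, ?_⟩
  intro x w hw hw0
  have hrc : Continuous (fun t => rot t x) := continuous_rot x
  have hii : ∀ f : ℝ → ℝ, Continuous f → IntervalIntegrable f volume 0 (2 * Real.pi) :=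
    fun f hf => hf.intervalIntegrable _ _
  have hiC : ∀ f : ℝ → ℂ, Continuous f → IntervalIntegrable f volume 0 (2 * Real.pi) :=
    fun f hf => hf.intervalIntegrable _ _
  have e6 : ∀ t : ℝ, (rot t x).1 ^ 2 = x.1 ^ 2 * ee (-((6 : ℤ) : ℝ) * t) := by
    intro t
    have h1 : ee (-((6 : ℤ) : ℝ) * t) = ee (-3 * t) * ee (-3 * t) := by
      rw [← ee_add]; congr 1; push_cast; ring
    rw [h1]
    simp only [rot]
    ring
  have hee : Continuous (fun t : ℝ => ee (-((6 : ℤ) : ℝ) * t)) :=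
    continuous_ee.comp (by fun_prop)
  have e7 : ∀ t : ℝ, w t * B (rot t x) (rot t x) = (c₁ * ‖x.1‖ ^ 2) * w t +
      (c₂ * x.1 ^ 2 * ((w t : ℂ) * ee (-((6 : ℤ) : ℝ) * t))).re + w t * R (rot t x) := by
    intro t
    rw [hP, norm_rot_fst, e6]
    have h1 : (c₂ * x.1 ^ 2 * ((w t : ℂ) * ee (-((6 : ℤ) : ℝ) * t))).re =
        w t * (c₂ * (x.1 ^ 2 * ee (-((6 : ℤ) : ℝ) * t))).re := by
      rw [← Complex.re_ofReal_mul]
      congr 1
      ring
    rw [h1]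
    ring
  have hwe : Continuous (fun t : ℝ => (w t : ℂ) * ee (-((6 : ℤ) : ℝ) * t)) :=
    (Complex.continuous_ofReal.comp hw).mul hee
  have e8 : ∫ t in (0 : ℝ)..(2 * Real.pi),
      (c₂ * x.1 ^ 2 * ((w t : ℂ) * ee (-((6 : ℤ) : ℝ) * t))).re = (c₂ * x.1 ^ 2 * wf w 6).re := by
    have h1 := Complex.reCLM.intervalIntegral_comp_comm
      (hiC (fun t => c₂ * x.1 ^ 2 * ((w t : ℂ) * ee (-((6 : ℤ) : ℝ) * t)))
        (continuous_const.mul hwe))
    rw [intervalIntegral.integral_const_mul] at h1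
    exact h1
  have hc1 : Continuous (fun t : ℝ => (c₁ * ‖x.1‖ ^ 2) * w t) := continuous_const.mul hw
  have hc2 : Continuous (fun t : ℝ =>
      (c₂ * x.1 ^ 2 * ((w t : ℂ) * ee (-((6 : ℤ) : ℝ) * t))).re) :=
    Complex.continuous_re.comp (continuous_const.mul hwe)
  have hc3 : Continuous (fun t : ℝ => w t * R (rot t x)) := hw.mul (hRc.comp hrc)
  have e9 : ∫ t in (0 : ℝ)..(2 * Real.pi), w t * B (rot t x) (rot t x) =
      (c₂ * x.1 ^ 2 * wf w 6).re + ∫ t in (0 : ℝ)..(2 * Real.pi), w t * R (rot t x) := by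
    rw [intervalIntegral.integral_congr (fun t _ => e7 t), int3 _ _ _ hc1 hc2 hc3, e8,
      intervalIntegral.integral_const_mul, hw0]
    ring
  have b1 : |(c₂ * x.1 ^ 2 * wf w 6).re| ≤ ‖c₂‖ * (‖x.1‖ ^ 2 * ‖wf w 6‖) := by
    refine (Complex.abs_re_le_norm _).trans (le_of_eq ?_)
    rw [norm_mul, norm_mul, norm_pow]
    ring
  have b2 : |∫ t in (0 : ℝ)..(2 * Real.pi), w t * R (rot t x)| ≤
      2 * ‖B‖ * (‖x.1‖ * ‖x.2‖ + ‖x.2‖ ^ 2) * n1 w := by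
    have h2pi : (0 : ℝ) ≤ 2 * Real.pi := by positivity
    have h1 := intervalIntegral.abs_integral_le_integral_abs (f := fun t => w t * R (rot t x))
      (μ := volume) h2pi
    refine h1.trans ?_
    unfold n1
    rw [← intervalIntegral.integral_const_mul]
    apply intervalIntegral.integral_mono_on h2pi (hii _ hc3.abs)
      (hii _ (continuous_const.mul hw.abs))
    intro t _
    show |w t * R (rot t x)| ≤ 2 * ‖B‖ * (‖x.1‖ * ‖x.2‖ + ‖x.2‖ ^ 2) * |w t|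
    rw [abs_mul]
    have h2 := hRb (rot t x)
    rw [norm_rot_fst, norm_rot_snd] at h2
    have h3 := mul_le_mul_of_nonneg_left h2 (abs_nonneg (w t))
    linarith
  rw [e9]
  have hn1 : 0 ≤ n1 w := by
    unfold n1
    apply intervalIntegral.integral_nonneg (by positivity)
    intro t _
    exact abs_nonneg _
  have t0 := abs_add_le (c₂ * x.1 ^ 2 * wf w 6).re
    (∫ t in (0 : ℝ)..(2 * Real.pi), w t * R (rot t x))
  have t1 : 0 ≤ ‖x.1‖ ^ 2 * ‖wf w 6‖ := by positivity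
  have t2 : 0 ≤ (‖x.1‖ * ‖x.2‖ + ‖x.2‖ ^ 2) * n1 w := by positivity
  have t3 : 0 ≤ ‖B‖ := by positivity
  have t4 : 0 ≤ ‖c₂‖ := norm_nonneg _
  have t5 := mul_nonneg t3 t1
  have t6 := mul_nonneg t4 t2
  calc _ ≤ ‖c₂‖ * (‖x.1‖ ^ 2 * ‖wf w 6‖) +
        2 * ‖B‖ * (‖x.1‖ * ‖x.2‖ + ‖x.2‖ ^ 2) * n1 w := by linarith
    _ ≤ _ := by nlinarith

theorem hKER (_ : StSof) : StKer := by
  intro κ s r σ₀ C₀ K₁ S₁ hr hκ hs hκ0 hs0 _ hκ1 hs1
  obtain ⟨c, r₁, B, hc, hr₁, hr₁r, hker⟩ :=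
    kernel κ s r σ₀ C₀ K₁ S₁ hr hκ hs hκ0 hs0 hκ1 hs1
  obtain ⟨Cq, hCq, hquad⟩ := quad_int B
  refine ⟨c + Cq + 1, r₁, by positivity, hr₁, hr₁r, ?_⟩
  intro x w hx hw hwp hw0
  have ho : IsOpen (ball (0 : ℂ × ℂ) r) := isOpen_ball
  have hv1 : ∀ u : ℝ, rot u x ∈ ball (0 : ℂ × ℂ) r₁ := by
    intro u
    rw [mem_ball_zero_iff, norm_rot]
    exact hx
  have hvr : ∀ u : ℝ, rot u x ∈ ball (0 : ℂ × ℂ) r := fun u => ball_subset_ball hr₁r (hv1 u)
  have hrc : Continuous (fun t => rot t x) := continuous_rot x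
  have h2pi : (0 : ℝ) ≤ 2 * Real.pi := by positivity
  have hii : ∀ f : ℝ → ℝ, Continuous f → IntervalIntegrable f volume 0 (2 * Real.pi) :=
    fun f hf => hf.intervalIntegrable _ _
  set T : ℝ → ℝ := fun u => u + s (rot u x) with hT
  set T' : ℝ → ℝ := fun u => 1 + fderiv ℝ s (rot u x) (XL (rot u x)) with hT'
  have hTd : ∀ u, HasDerivAt T (T' u) u := by
    intro u
    have h1 : HasFDerivAt s (fderiv ℝ s (rot u x)) (rot u x) :=
      ((hs.differentiableOn (by norm_num)).differentiableAt (ho.mem_nhds (hvr u))).hasFDerivAt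
    have h2 := h1.comp_hasDerivAt u (hasDerivAt_rot x u)
    have h3 := (hasDerivAt_id u).add h2
    have e : T' u = 1 + fderiv ℝ s (rot u x)
        (-3 * Complex.I * (rot u x).1, -5 * Complex.I * (rot u x).2) := by
      rw [hT']; simp only [XL_apply]
    rw [e]
    exact h3
  have hTc : Continuous T := continuous_iff_continuousAt.2 (fun u => (hTd u).continuousAt)
  have hsc : Continuous (fun u => fderiv ℝ s (rot u x)) :=
    (hs.continuousOn_fderiv_of_isOpen ho (by norm_num)).comp_continuous hrc hvr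
  have hT'c : Continuous T' :=
    continuous_const.add (hsc.clm_apply (XL.continuous.comp hrc))
  have hκc : Continuous (fun u => κ (rot u x)) := hκ.continuousOn.comp_continuous hrc hvr
  have hT'p : ∀ u, 0 ≤ T' u := by
    intro u
    have := (hker (rot u x) (hv1 u)).1
    show 0 ≤ 1 + fderiv ℝ s (rot u x) (XL (rot u x))
    linarith
  have hTper : T (2 * Real.pi) = T 0 + 2 * Real.pi := by
    have h1 : rot (2 * Real.pi) x = rot 0 x := by
      have := rot_per 0 x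
      rwa [zero_add] at this
    show 2 * Real.pi + s (rot (2 * Real.pi) x) = 0 + s (rot 0 x) + 2 * Real.pi
    rw [h1]
    ring
  have hrotT : ∀ u, rot (T u) x = rot (s (rot u x)) (rot u x) := by
    intro u
    rw [← rot_add, add_comm (s (rot u x)) u]
  -- substitution
  have hsub : ∀ F : ℝ → ℝ, Continuous F → (∀ t, F (t + 2 * Real.pi) = F t) →
      ∫ u in (0 : ℝ)..(2 * Real.pi), F (T u) * T' u = ∫ t in (0 : ℝ)..(2 * Real.pi), F t := by
    intro F hF hFp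
    have h1 := intervalIntegral.integral_comp_mul_deriv (a := 0) (b := 2 * Real.pi)
      (f := T) (f' := T') (g := F) (fun u _ => hTd u) hT'c.continuousOn hF
    have h2 : Function.Periodic F (2 * Real.pi) := hFp
    have h3 := h2.intervalIntegral_add_eq (T 0) 0
    rw [zero_add] at h3
    rw [hTper, h3] at h1
    exact h1
  set A := AL K₁ S₁ σ₀ with hA
  set F : ℝ → ℝ := fun t => w t * (1 + A (rot t x) + B (rot t x) (rot t x)) with hF
  have hAc : Continuous (fun t => A (rot t x)) := A.continuous.comp hrc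
  have hBc : Continuous (fun t => B (rot t x) (rot t x)) := by fun_prop
  have hFc : Continuous F := hw.mul ((continuous_const.add hAc).add hBc)
  have hFp : ∀ t, F (t + 2 * Real.pi) = F t := by
    intro t
    simp only [hF, hwp, rot_per]
  have s1 := hsub F hFc hFp
  have s2 := hsub (fun t => |w t|) hw.abs (fun t => by rw [hwp])
  have hwT : Continuous (fun u => w (T u)) := hw.comp hTc
  -- the integral of F
  have s3 : ∫ t in (0 : ℝ)..(2 * Real.pi), F t = (∫ t in (0 : ℝ)..(2 * Real.pi), w t * A (rot t x))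
      + ∫ t in (0 : ℝ)..(2 * Real.pi), w t * B (rot t x) (rot t x) := by
    have h1 : ∀ t, F t = w t + w t * A (rot t x) + w t * B (rot t x) (rot t x) := by
      intro t; simp only [hF]; ring
    rw [intervalIntegral.integral_congr (fun t _ => h1 t),
      int3 (fun t => w t) (fun t => w t * A (rot t x)) (fun t => w t * B (rot t x) (rot t x))
        hw (hw.mul hAc) (hw.mul hBc), hw0, zero_add]
  -- the error
  have hc1 : Continuous (fun u => κ (rot u x) * w (T u)) := hκc.mul hwT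
  have hc2 : Continuous (fun u => F (T u) * T' u) := (hFc.comp hTc).mul hT'c
  have s4 : |(∫ u in (0 : ℝ)..(2 * Real.pi), κ (rot u x) * w (T u)) -
      ∫ u in (0 : ℝ)..(2 * Real.pi), F (T u) * T' u| ≤ c * ‖x‖ ^ 3 * n1 w := by
    rw [← intervalIntegral.integral_sub (hii _ hc1) (hii _ hc2)]
    refine (intervalIntegral.abs_integral_le_integral_abs h2pi).trans ?_
    unfold n1
    rw [← s2, ← intervalIntegral.integral_const_mul]
    apply intervalIntegral.integral_mono_on h2pi (hii _ (hc1.sub hc2).abs)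
      (hii _ (continuous_const.mul (hwT.abs.mul hT'c)))
    intro u _
    have h1 := (hker (rot u x) (hv1 u)).2
    rw [norm_rot, ← hrotT] at h1
    have e1 : κ (rot u x) * w (T u) - F (T u) * T' u =
        w (T u) * (κ (rot u x) - T' u * (1 + A (rot (T u) x) +
          B (rot (T u) x) (rot (T u) x))) := by
      simp only [hF]; ring
    show |κ (rot u x) * w (T u) - F (T u) * T' u| ≤ c * ‖x‖ ^ 3 * (|w (T u)| * T' u)
    rw [e1, abs_mul]
    calc |w (T u)| * |κ (rot u x) - T' u * (1 + A (rot (T u) x) +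
          B (rot (T u) x) (rot (T u) x))|
        ≤ |w (T u)| * (T' u * (c * ‖x‖ ^ 3)) :=
          mul_le_mul_of_nonneg_left h1 (abs_nonneg _)
      _ = c * ‖x‖ ^ 3 * (|w (T u)| * T' u) := by ring
  have s5 := hquad x w hw hw0
  have hn1 : 0 ≤ n1 w := by
    unfold n1
    apply intervalIntegral.integral_nonneg (by positivity)
    intro t _
    exact abs_nonneg _
  have e10 : (fun t => w t * (K₁ (rot (-σ₀) (rot t x))
        - S₁ (-3 * Complex.I * (rot (-σ₀) (rot t x)).1,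
              -5 * Complex.I * (rot (-σ₀) (rot t x)).2))) = fun t => w t * A (rot t x) := by
    ext t
    rw [hA, AL_apply, RL_apply, XL_apply]
  rw [e10]
  show |(∫ u in (0 : ℝ)..(2 * Real.pi), κ (rot u x) * w (T u)) - _| ≤ _
  have e11 : (∫ u in (0 : ℝ)..(2 * Real.pi), κ (rot u x) * w (T u)) -
      ∫ t in (0 : ℝ)..(2 * Real.pi), w t * A (rot t x) =
      ((∫ u in (0 : ℝ)..(2 * Real.pi), κ (rot u x) * w (T u)) -
        ∫ u in (0 : ℝ)..(2 * Real.pi), F (T u) * T' u) +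
      ∫ t in (0 : ℝ)..(2 * Real.pi), w t * B (rot t x) (rot t x) := by
    rw [s1, s3]; ring
  rw [e11]
  refine (abs_add_le _ _).trans ?_
  have t1 : 0 ≤ ‖x.1‖ ^ 2 * ‖wf w 6‖ := by positivity
  have t2 : 0 ≤ (‖x.1‖ * ‖x.2‖ + ‖x.2‖ ^ 2) * n1 w := by positivity
  have t3 : 0 ≤ ‖x‖ ^ 3 * n1 w := by positivity
  have t4 := mul_nonneg hc t1
  have t5 := mul_nonneg hc t2
  have t6 := mul_nonneg hCq t3
  calc _ ≤ c * ‖x‖ ^ 3 * n1 w +
        Cq * (‖x.1‖ ^ 2 * ‖wf w 6‖ + (‖x.1‖ * ‖x.2‖ + ‖x.2‖ ^ 2) * n1 w) := add_le_add s4 s5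
    _ ≤ _ := by nlinarith

end Pool.Agent.Helper97.LT
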