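import Pool.Agent.Helper49.LT.StC

/-! MODULE MAI of project LT: the main theorem. -/

set_option autoImplicit false

open MeasureTheory Set Filter Metric

namespace Pool.Agent.Helper97.LT

open Helper49.LT Helper97.CB

private theorem nsq (z : ℂ) : z * (starRingEnd ℂ) z = ((‖z‖ ^ 2 : ℝ) : ℂ) := by
  rw [Complex.mul_conj, Complex.normSq_eq_norm_sq]

private theorem nsq' (z : ℂ) : (starRingEnd ℂ) z * z = ((‖z‖ ^ 2 : ℝ) : ℂ) := by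
  rw [mul_comm, nsq]

/-- inverse of an affine map -/
private theorem aff_inv (α β b : ℂ) (h : ‖β‖ < ‖α‖) : ∃ α' β' b' : ℂ, ‖β'‖ < ‖α'‖ ∧
    (∀ z, aff α' β' b' (aff α β b z) = z) ∧ (∀ z, aff α β b (aff α' β' b' z) = z) := by
  have hD : 0 < ‖α‖ ^ 2 - ‖β‖ ^ 2 := by nlinarith [norm_nonneg β]
  set D : ℝ := ‖α‖ ^ 2 - ‖β‖ ^ 2 with hDdef
  have hDc : ((D : ℝ) : ℂ) ≠ 0 := by exact_mod_cast hD.ne'
  have e : α * (starRingEnd ℂ) α - β * (starRingEnd ℂ) β = (D : ℂ) := by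
    rw [nsq, nsq, hDdef]
    push_cast
    ring
  have hDconj : (starRingEnd ℂ) (D : ℂ) = (D : ℂ) := Complex.conj_ofReal D
  refine ⟨(starRingEnd ℂ) α / D, -β / D,
    -((starRingEnd ℂ) α / D * b + -β / D * (starRingEnd ℂ) b), ?_, ?_, ?_⟩
  · rw [norm_div, norm_div, norm_neg, Complex.norm_conj]
    exact div_lt_div_of_pos_right h (by simpa using hD.ne')
  · intro z
    simp only [aff, map_add, map_mul, Complex.conj_conj]
    field_simp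
    linear_combination z * e
  · intro z
    simp only [aff, map_add, map_mul, map_neg, map_div₀, Complex.conj_conj, hDconj]
    field_simp
    linear_combination (z - b) * e

/-- composition of affine maps -/
private theorem aff_comp (α₁ β₁ b₁ α₂ β₂ b₂ : ℂ) (h₁ : ‖β₁‖ < ‖α₁‖) (h₂ : ‖β₂‖ < ‖α₂‖) :
    ∃ α β b : ℂ, ‖β‖ < ‖α‖ ∧ ∀ z, aff α β b z = aff α₁ β₁ b₁ (aff α₂ β₂ b₂ z) := by
  refine ⟨α₁ * α₂ + β₁ * (starRingEnd ℂ) β₂, α₁ * β₂ + β₁ * (starRingEnd ℂ) α₂,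
    α₁ * b₂ + β₁ * (starRingEnd ℂ) b₂ + b₁, ?_, ?_⟩
  · have h3 : ‖α₁ * β₂ + β₁ * (starRingEnd ℂ) α₂‖ ^ 2 <
        ‖α₁ * α₂ + β₁ * (starRingEnd ℂ) β₂‖ ^ 2 := by
      have h4 : ‖α₁ * α₂ + β₁ * (starRingEnd ℂ) β₂‖ ^ 2 -
          ‖α₁ * β₂ + β₁ * (starRingEnd ℂ) α₂‖ ^ 2 =
          (‖α₁‖ ^ 2 - ‖β₁‖ ^ 2) * (‖α₂‖ ^ 2 - ‖β₂‖ ^ 2) := by
        simp only [← Complex.normSq_eq_norm_sq, Complex.normSq_apply, Complex.add_re,
          Complex.add_im, Complex.mul_re, Complex.mul_im, Complex.conj_re, Complex.conj_im]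
        ring
      have h5 : 0 < ‖α₁‖ ^ 2 - ‖β₁‖ ^ 2 := by nlinarith [norm_nonneg β₁]
      have h6 : 0 < ‖α₂‖ ^ 2 - ‖β₂‖ ^ 2 := by nlinarith [norm_nonneg β₂]
      have h7 := mul_pos h5 h6
      linarith
    exact lt_of_pow_lt_pow_left₀ 2 (norm_nonneg _) h3
  · intro z
    simp only [aff, map_add, map_mul, Complex.conj_conj]
    ring

private theorem aff_scale (t : ℝ) (ht : 0 < t) : ∃ α β b : ℂ, ‖β‖ < ‖α‖ ∧
    ∀ z, aff α β b z = (t : ℂ) * z := by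
  refine ⟨t, 0, 0, ?_, fun z => by simp [aff]⟩
  rw [norm_zero, Complex.norm_real, Real.norm_of_nonneg ht.le]
  exact ht

private theorem m0_pos : 0 < m0 := by
  unfold m0
  have := Real.pi_pos
  positivity

/-- transfer of the smallness of the hexagons -/
private theorem small_aff (h₁ : StAff) {K : Set ℂ} {α β b : ℂ} (hK : IsBody K) (h : ‖β‖ < ‖α‖)
    {m : ℝ} (hs : Small K (2 * m * area K)) :
    Small (aff α β b '' K) (2 * m * area (aff α β b '' K)) := by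
  obtain ⟨-, h2, h3⟩ := h₁ K α β b hK h
  rw [h2]
  have h4 := h3 _ hs
  have e : (‖α‖ ^ 2 - ‖β‖ ^ 2) * (2 * m * area K) = 2 * m * ((‖α‖ ^ 2 - ‖β‖ ^ 2) * area K) := by
    ring
  rwa [e] at h4

theorem hMAI (h₁ : StAff) (h₂ : StNrm) (h₃ : StFin) (h₄ : StDsk) (h₅ : StSml) : StMai := by
  obtain ⟨C₁, ε₁, hC₁, hε₁, hN⟩ := h₂
  obtain ⟨C₂, κ₀, hC₂, hκ₀, hF⟩ := h₃
  have hC₁p : 0 < C₁ := lt_of_lt_of_le one_pos hC₁
  have hC₂p : 0 < C₂ := lt_of_lt_of_le one_pos hC₂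
  set ε₀ : ℝ := min ε₁ (κ₀ / C₁) with hε₀
  have hε₀p : 0 < ε₀ := lt_min hε₁ (div_pos hκ₀ hC₁p)
  have hκ : C₁ * ε₀ ≤ κ₀ := by
    have h6 : ε₀ ≤ κ₀ / C₁ := min_le_right _ _
    have h7 := mul_le_mul_of_nonneg_left h6 hC₁p.le
    rwa [mul_div_cancel₀ _ hC₁p.ne'] at h7
  refine ⟨ε₀, (1 / (4 * C₂)) ^ 4, hε₀p, by positivity, ?_⟩
  intro K α β b hK hαβ hin hout
  -- the normalised body
  obtain ⟨α', β', b', hαβ', hfi, hif⟩ := aff_inv α β b hαβ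
  set K₁ : Set ℂ := aff α' β' b' '' K with hK₁
  have hK₁b : IsBody K₁ := (h₁ K α' β' b' hK hαβ').1
  have hin₁ : closedBall (0 : ℂ) 1 ⊆ K₁ := by
    intro z hz
    exact ⟨aff α β b z, hin ⟨z, hz, rfl⟩, hfi z⟩
  have hout₁ : K₁ ⊆ closedBall 0 (1 + ε₀) := by
    rintro _ ⟨k, hk, rfl⟩
    obtain ⟨z, hz, rfl⟩ := hout hk
    rw [hfi]
    exact hz
  obtain ⟨α₂, β₂, b₂, hαβ₂, hin₂, hout₂, har, hm1, hm2⟩ :=
    hN K₁ ε₀ hK₁b hε₀p.le (min_le_left _ _) hin₁ hout₁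
  obtain ⟨α₃, β₃, b₃, hαβ₃, hgi, hig⟩ := aff_inv α₂ β₂ b₂ hαβ₂
  set K₂ : Set ℂ := aff α₂ β₂ b₂ '' K₁ with hK₂
  have hK₂b : IsBody K₂ := (h₁ K₁ α₂ β₂ b₂ hK₁b hαβ₂).1
  -- the consequence of the failure of the bound
  have key : ∀ μ : ℝ, 0 ≤ μ → μ ≤ 1 → ¬ (theta K ≤ ENNReal.ofReal (1 / (m0 * (1 + μ)))) →
      Small K₂ (2 * (m0 * (1 + μ)) * area K₂) ∧
      ∃ ρ : ℝ, 0 < ρ ∧ closedBall 0 (ρ * (1 - C₂ * μ ^ ((1 : ℝ) / 4))) ⊆ K₂ ∧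
        K₂ ⊆ closedBall 0 (ρ * (1 + C₂ * μ ^ ((1 : ℝ) / 4))) := by
    intro μ hμ0 hμ1 hnot
    have h6 : Small K (2 * (m0 * (1 + μ)) * area K) :=
      h₅ K hK _ (mul_pos m0_pos (by linarith)) hnot
    have h7 := small_aff h₁ (α := α') (β := β') (b := b') hK hαβ' h6
    have h8 := small_aff h₁ (α := α₂) (β := β₂) (b := b₂) hK₁b hαβ₂ h7
    refine ⟨h8, ?_⟩
    exact hF K₂ (C₁ * ε₀) μ hK₂b (by positivity) hκ hμ0 hμ1 hin₂ hout₂ har hm1 hm2 h8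
  refine ⟨?_, ?_⟩
  · by_contra hnot
    have h6 := key 0 le_rfl zero_le_one (by rwa [add_zero, mul_one])
    obtain ⟨hs, ρ, hρ, hi, ho⟩ := h6
    rw [Real.zero_rpow (by norm_num), mul_zero, sub_zero, mul_one] at hi
    rw [Real.zero_rpow (by norm_num), mul_zero, add_zero, mul_one] at ho
    have hE : K₂ = closedBall 0 ρ := Subset.antisymm ho hi
    rw [hE] at hs
    exact h₄ ρ hρ hs
  · rintro δ ⟨hδ0, hδ1⟩ hno
    by_contra hnot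
    set μ : ℝ := (1 / (4 * C₂)) ^ 4 * δ ^ 4 with hμ
    have hμ4 : μ = (δ / (4 * C₂)) ^ 4 := by
      rw [hμ, ← mul_pow]
      congr 1
      ring
    have hq0 : 0 ≤ δ / (4 * C₂) := by positivity
    have hq1 : δ / (4 * C₂) ≤ 1 := by
      rw [div_le_one (by positivity)]
      linarith
    have hμ0 : 0 ≤ μ := by positivity
    have hμ1 : μ ≤ 1 := by
      rw [hμ4]
      exact pow_le_one₀ hq0 hq1
    have hroot : μ ^ ((1 : ℝ) / 4) = δ / (4 * C₂) := by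
      rw [hμ4]
      have h6 := Real.pow_rpow_inv_natCast hq0 (n := 4) (by norm_num)
      have h7 : ((4 : ℕ) : ℝ)⁻¹ = (1 : ℝ) / 4 := by norm_num
      rwa [h7] at h6
    obtain ⟨-, ρ, hρ, hi, ho⟩ := key μ hμ0 hμ1 hnot
    have hs : C₂ * μ ^ ((1 : ℝ) / 4) = δ / 4 := by
      rw [hroot]
      field_simp
    rw [hs] at hi ho
    have ht : 0 < ρ * (1 - δ / 4) := mul_pos hρ (by linarith)
    obtain ⟨α₄, β₄, b₄, hαβ₄, hsc⟩ := aff_scale _ ht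
    obtain ⟨α₅, β₅, b₅, hαβ₅, h5c⟩ := aff_comp α β b α₃ β₃ b₃ hαβ hαβ₃
    obtain ⟨α₆, β₆, b₆, hαβ₆, h6c⟩ := aff_comp α₅ β₅ b₅ α₄ β₄ b₄ hαβ₅ hαβ₄
    have hF' : ∀ z, aff α₆ β₆ b₆ z =
        aff α β b (aff α₃ β₃ b₃ (((ρ * (1 - δ / 4) : ℝ) : ℂ) * z)) := by
      intro z
      rw [h6c, h5c, hsc]
    refine hno α₆ β₆ b₆ hαβ₆ ?_ ?_
    · rintro _ ⟨z, hz, rfl⟩
      rw [hF']
      have h7 : ((ρ * (1 - δ / 4) : ℝ) : ℂ) * z ∈ K₂ := by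
        apply hi
        rw [mem_closedBall_zero_iff] at hz ⊢
        rw [norm_mul, Complex.norm_real, Real.norm_of_nonneg ht.le]
        calc ρ * (1 - δ / 4) * ‖z‖ ≤ ρ * (1 - δ / 4) * 1 :=
              mul_le_mul_of_nonneg_left hz ht.le
          _ = ρ * (1 - δ / 4) := mul_one _
      obtain ⟨k₁, hk₁, he⟩ := h7
      rw [← he, hgi]
      obtain ⟨k, hk, rfl⟩ := hk₁
      rw [hif]
      exact hk
    · intro k hk
      have h7 : aff α₂ β₂ b₂ (aff α' β' b' k) ∈ K₂ := ⟨_, ⟨k, hk, rfl⟩, rfl⟩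
      have h8 := ho h7
      rw [mem_closedBall_zero_iff] at h8
      have htc : ((ρ * (1 - δ / 4) : ℝ) : ℂ) ≠ 0 := by exact_mod_cast ht.ne'
      refine ⟨(((ρ * (1 - δ / 4) : ℝ) : ℂ))⁻¹ * aff α₂ β₂ b₂ (aff α' β' b' k), ?_, ?_⟩
      · rw [mem_closedBall_zero_iff, norm_mul, norm_inv, Complex.norm_real,
          Real.norm_of_nonneg ht.le, inv_mul_le_iff₀ ht]
        refine h8.trans ?_
        have h9 : (1 + δ / 4) ≤ (1 - δ / 4) * (1 + δ) := by nlinarith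
        calc ρ * (1 + δ / 4) ≤ ρ * ((1 - δ / 4) * (1 + δ)) :=
              mul_le_mul_of_nonneg_left h9 hρ.le
          _ = ρ * (1 - δ / 4) * (1 + δ) := by ring
      · rw [hF', mul_inv_cancel_left₀ htc, hgi, hif]

end Pool.Agent.Helper97.LT
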