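import Pool.Agent.Helper49.LT.StC

/-! MODULE NRM of project LT: affine normalization. -/

set_option autoImplicit false

open MeasureTheory Set Filter Metric

namespace Pool.Agent.Helper97.LT

open Helper49.LT Helper97.CB

private theorem nm_sq (z : ℂ) : z * (starRingEnd ℂ) z = ((‖z‖ ^ 2 : ℝ) : ℂ) := by
  rw [Complex.mul_conj, Complex.normSq_eq_norm_sq]

/-- inverse of an affine map -/
private theorem aff_inv' (α β b : ℂ) (z : ℂ) :
    ((starRingEnd ℂ) α * (aff α β b z - b) - β * (starRingEnd ℂ) (aff α β b z - b)) =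
      ((‖α‖ ^ 2 - ‖β‖ ^ 2 : ℝ) : ℂ) * z := by
  have e : α * (starRingEnd ℂ) α - β * (starRingEnd ℂ) β =
      ((‖α‖ ^ 2 - ‖β‖ ^ 2 : ℝ) : ℂ) := by
    rw [nm_sq, nm_sq]
    push_cast
    ring
  simp only [aff, map_add, map_mul, map_sub, Complex.conj_conj]
  linear_combination z * e

private theorem aff_inj (α β b : ℂ) (h : ‖β‖ < ‖α‖) : Function.Injective (aff α β b) := by
  intro z w hzw
  have h1 := aff_inv' α β b z
  have h2 := aff_inv' α β b w
  rw [hzw, h2] at h1
  have hD : 0 < ‖α‖ ^ 2 - ‖β‖ ^ 2 := by nlinarith [norm_nonneg β]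
  have hDc : (((‖α‖ ^ 2 - ‖β‖ ^ 2 : ℝ)) : ℂ) ≠ 0 := by exact_mod_cast hD.ne'
  exact (mul_left_cancel₀ hDc h1).symm

/-- functions with a rotational character integrate to zero over the disk -/
private theorem int_disk (g : ℂ → ℂ) (c : ℂ) (hc : c ≠ 1)
    (hg : ∀ z, g (Complex.I * z) = c * g z) : ∫ z in closedBall (0 : ℂ) 1, g z = 0 := by
  have hI : Complex.I ∈ Submonoid.unitSphere ℂ := by
    simp [Submonoid.unitSphere]
  let a : Circle := ⟨Complex.I, hI⟩
  have h1 : MeasurePreserving (rotation a) volume volume := (rotation a).measurePreserving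
  have h2 : MeasurableEmbedding (rotation a) :=
    (rotation a).toHomeomorph.measurableEmbedding
  have h3 := h1.setIntegral_preimage_emb h2 g (closedBall (0 : ℂ) 1)
  have h4 : (rotation a) ⁻¹' closedBall (0 : ℂ) 1 = closedBall (0 : ℂ) 1 := by
    ext z
    rw [mem_preimage, mem_closedBall_zero_iff, mem_closedBall_zero_iff,
      LinearIsometryEquiv.norm_map]
  rw [h4] at h3
  have h5 : (fun z => g ((rotation a) z)) = fun z => c * g z := by
    ext z
    rw [rotation_apply]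
    exact hg z
  have h6 : ∫ z in closedBall (0 : ℂ) 1, g ((rotation a) z) =
      c * ∫ z in closedBall (0 : ℂ) 1, g z := by
    rw [h5, integral_const_mul]
  rw [h6] at h3
  have h7 : (c - 1) * ∫ z in closedBall (0 : ℂ) 1, g z = 0 := by
    linear_combination h3
  rcases mul_eq_zero.1 h7 with h8 | h8
  · exact absurd (sub_eq_zero.1 h8) hc
  · exact h8

private theorem area_ball (a : ℂ) (r : ℝ) (hr : 0 ≤ r) :
    volume.real (closedBall a r) = Real.pi * r ^ 2 := by
  rw [Measure.real, Complex.volume_closedBall]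
  simp [ENNReal.toReal_mul, ENNReal.toReal_pow, ENNReal.toReal_ofReal hr]
  ring

/-- integrals over `K` of functions with zero integral over the disk -/
private theorem int_diff_le (K : Set ℂ) (hK : IsBody K) (g : ℂ → ℂ) (hg : Continuous g)
    (hD : closedBall (0 : ℂ) 1 ⊆ K) (hz : ∫ z in closedBall (0 : ℂ) 1, g z = 0) (B : ℝ)
    (hB : ∀ z ∈ K, ‖g z‖ ≤ B) : ‖∫ z in K, g z‖ ≤ B * (area K - Real.pi) := by
  have hKf : volume K ≠ ⊤ := hK.2.1.measure_lt_top.ne
  have hint : IntegrableOn g K := hg.continuousOn.integrableOn_compact hK.2.1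
  have h1 : ∫ z in K \ closedBall (0 : ℂ) 1, g z = ∫ z in K, g z := by
    rw [setIntegral_sdiff measurableSet_closedBall hint hD, hz, sub_zero]
  have hvd : volume (K \ closedBall (0 : ℂ) 1) < ⊤ :=
    lt_of_le_of_lt (measure_mono sdiff_subset) hK.2.1.measure_lt_top
  have h2 := norm_setIntegral_le_of_norm_le_const hvd
    (fun z (hz : z ∈ K \ closedBall (0 : ℂ) 1) => hB z hz.1)
  have h3 : volume.real (K \ closedBall (0 : ℂ) 1) = area K - Real.pi := by
    rw [measureReal_sdiff hD measurableSet_closedBall hKf, area_ball 0 1 zero_le_one]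
    unfold area Measure.real
    ring
  rw [h1, h3] at h2
  exact h2

/-- change of variables: a function with zero integral after the substitution -/
private theorem int_aff (K : Set ℂ) (hK : IsBody K) (α β b : ℂ) (h : ‖β‖ < ‖α‖) (g : ℂ → ℂ)
    (h0 : ∫ z in K, g (aff α β b z) = 0) : ∫ z in aff α β b '' K, g z = 0 := by
  let L : ℂ →L[ℝ] ℂ := α • ContinuousLinearMap.id ℝ ℂ + β • (Complex.conjCLE : ℂ →L[ℝ] ℂ)
  have hL : ∀ z, aff α β b z = L z + b := by
    intro z
    simp [aff, L]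
  have hd : ∀ x ∈ K, HasFDerivWithinAt (aff α β b) ((fun _ => L) x) K x := by
    intro x _
    have h1 : HasFDerivAt (fun z => L z + b) L x := L.hasFDerivAt.add_const b
    have h2 : aff α β b = fun z => L z + b := funext hL
    rw [h2]
    exact h1.hasFDerivWithinAt
  rw [integral_image_eq_integral_abs_det_fderiv_smul volume hK.2.1.measurableSet hd
    (aff_inj α β b h).injOn g]
  rw [integral_smul, h0, smul_zero]

private theorem pi_bd : 3 < Real.pi ∧ Real.pi < 3.15 :=
  ⟨Real.pi_gt_three, Real.pi_lt_d2⟩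

/-- the lower bound for the polar moment -/
private theorem N_ge (K : Set ℂ) (hK : IsBody K) (hD : closedBall (0 : ℂ) 1 ⊆ K) (c : ℂ) :
    1 / 2 ≤ ∫ z in K, ‖z - c‖ ^ 2 := by
  have hKf : volume K ≠ ⊤ := hK.2.1.measure_lt_top.ne
  have hg : Continuous (fun z : ℂ => ‖z - c‖ ^ 2) := by fun_prop
  have hint : IntegrableOn (fun z : ℂ => ‖z - c‖ ^ 2) K :=
    hg.continuousOn.integrableOn_compact hK.2.1
  have h1 : ∫ z in K \ closedBall c (1 / 2), ‖z - c‖ ^ 2 ≤ ∫ z in K, ‖z - c‖ ^ 2 := by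
    apply setIntegral_mono_set hint
    · exact Eventually.of_forall (fun z => by positivity)
    · exact (sdiff_subset).eventuallyLE
  have hm : MeasurableSet (K \ closedBall c (1 / 2)) :=
    hK.2.1.measurableSet.diff measurableSet_closedBall
  have hvd : volume (K \ closedBall c (1 / 2)) ≠ ⊤ :=
    (lt_of_le_of_lt (measure_mono sdiff_subset) hK.2.1.measure_lt_top).ne
  have h2 := setIntegral_ge_of_const_le_real (f := fun z : ℂ => ‖z - c‖ ^ 2) (c := 1 / 4) hm hvd
    (fun z hz => by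
      have h3 : 1 / 2 < ‖z - c‖ := by
        have h4 := hz.2
        rw [mem_closedBall, dist_eq_norm, not_le] at h4
        exact h4
      nlinarith) (hint.mono_set sdiff_subset)
  have h4 : volume.real K - volume.real (closedBall c (1 / 2)) ≤
      volume.real (K \ closedBall c (1 / 2)) :=
    le_measureReal_sdiff measure_closedBall_lt_top.ne
  have h5 : Real.pi ≤ volume.real K := by
    have h6 := measureReal_mono hD hKf
    rw [area_ball 0 1 zero_le_one] at h6
    linarith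
  rw [area_ball c (1 / 2) (by norm_num)] at h4
  have := pi_bd
  linarith

/-- the root of the quadratic equation -/
private theorem quad_root (S : ℂ) (N s : ℝ) (hN : 1 / 2 ≤ N) (hs : ‖S‖ ≤ s) (hs2 : s ≤ 1 / 2) :
    ∃ β : ℂ, ‖β‖ ≤ 2 * s ∧ (starRingEnd ℂ) S * β ^ 2 + 2 * (N : ℂ) * β + S = 0 := by
  have h0 := norm_nonneg S
  have h1 : 0 ≤ N ^ 2 - ‖S‖ ^ 2 := by nlinarith
  set R : ℝ := Real.sqrt (N ^ 2 - ‖S‖ ^ 2) with hR
  have hR0 : 0 ≤ R := Real.sqrt_nonneg _
  have hR2 : R ^ 2 = N ^ 2 - ‖S‖ ^ 2 := Real.sq_sqrt h1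
  have hNR : 0 < N + R := by linarith
  set τ : ℝ := 1 / (N + R) with hτ
  have hτ0 : 0 ≤ τ := by positivity
  have hτ2 : τ ≤ 2 := by
    rw [hτ, div_le_iff₀ hNR]
    linarith
  have hq : ‖S‖ ^ 2 * τ ^ 2 - 2 * N * τ + 1 = 0 := by
    rw [hτ]
    field_simp
    nlinarith [hR2]
  refine ⟨-(S * (τ : ℂ)), ?_, ?_⟩
  · rw [norm_neg, norm_mul, Complex.norm_real, Real.norm_of_nonneg hτ0]
    calc ‖S‖ * τ ≤ ‖S‖ * 2 := mul_le_mul_of_nonneg_left hτ2 h0
      _ ≤ 2 * s := by linarith
  · have h2 : (starRingEnd ℂ) S * S = ((‖S‖ ^ 2 : ℝ) : ℂ) := by rw [mul_comm, nm_sq]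
    have h3 : (((‖S‖ ^ 2 : ℝ) : ℂ) * (τ : ℂ) ^ 2 - 2 * (N : ℂ) * (τ : ℂ) + 1) = 0 := by
      exact_mod_cast hq
    linear_combination S * (τ : ℂ) ^ 2 * h2 + S * h3

theorem hNRM (hA : StAff) : StNrm := by
  refine ⟨100, 1 / 1000, by norm_num, by norm_num, ?_⟩
  intro K ε hK hε0 hε1 hD hout
  have hpi := pi_bd
  have hpi0 := Real.pi_pos
  have hKf : volume K ≠ ⊤ := hK.2.1.measure_lt_top.ne
  have hnK : ∀ z ∈ K, ‖z‖ ≤ 1 + ε := by
    intro z hz
    have := hout hz
    rwa [mem_closedBall_zero_iff] at this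
  have hA1 : Real.pi ≤ area K := by
    have h6 := measureReal_mono hD hKf
    rw [area_ball 0 1 zero_le_one] at h6
    unfold area
    unfold Measure.real at h6
    linarith
  have hA2 : area K ≤ Real.pi * (1 + ε) ^ 2 := by
    have h6 := measureReal_mono hout (measure_closedBall_lt_top (μ := volume)).ne
    rw [area_ball 0 (1 + ε) (by linarith)] at h6
    unfold area
    unfold Measure.real at h6
    linarith
  have hA3 : area K - Real.pi ≤ 6.31 * ε := by
    have : Real.pi * (1 + ε) ^ 2 - Real.pi = Real.pi * (ε * (2 + ε)) := by ring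
    nlinarith [mul_nonneg hε0 hε0]
  have hA4 : area K ≤ 4 := by nlinarith
  set A : ℝ := area K with hAdef
  have hApos : 0 < A := by linarith
  -- first moment
  have hM1 : ‖∫ z in K, z‖ ≤ 7 * ε := by
    have h6 := int_diff_le K hK (fun z => z) continuous_id hD
      (int_disk (fun z => z) Complex.I (by
        intro h
        have := congrArg Complex.re h
        simp at this) (fun z => rfl)) (1 + ε) hnK
    nlinarith
  have hM2 : ‖∫ z in K, z ^ 2‖ ≤ 7 * ε := by
    have h6 := int_diff_le K hK (fun z => z ^ 2) (by fun_prop) hD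
      (int_disk (fun z => z ^ 2) (-1) (by norm_num) (fun z => by
        have := Complex.I_sq
        show (Complex.I * z) ^ 2 = -1 * z ^ 2
        rw [mul_pow, this])) ((1 + ε) ^ 2) (fun z hz => by
          rw [norm_pow]
          exact pow_le_pow_left₀ (norm_nonneg _) (hnK z hz) 2)
    have h7 : (1 + ε) ^ 2 ≤ 1.1 := by nlinarith
    have h8 : (1 + ε) ^ 2 * (area K - Real.pi) ≤ 1.1 * (6.31 * ε) :=
      mul_le_mul h7 hA3 (by linarith) (by norm_num)
    linarith
  set M₁ : ℂ := ∫ z in K, z with hM₁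
  set M₂ : ℂ := ∫ z in K, z ^ 2 with hM₂
  have hAc : (A : ℂ) ≠ 0 := by exact_mod_cast hApos.ne'
  set c : ℂ := M₁ / (A : ℂ) with hc
  have hcA : c * (A : ℂ) = M₁ := by rw [hc]; field_simp
  have hcn : ‖c‖ ≤ 3 * ε := by
    rw [hc, norm_div, Complex.norm_real, Real.norm_of_nonneg hApos.le, div_le_iff₀ hApos]
    nlinarith
  have hci : ∀ g : ℂ → ℂ, Continuous g → IntegrableOn g K := fun g hg =>
    hg.continuousOn.integrableOn_compact hK.2.1
  have hconst : ∀ d : ℂ, ∫ _ in K, d = (A : ℂ) * d := by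
    intro d
    rw [setIntegral_const]
    rw [hAdef]
    unfold area Measure.real
    rw [Complex.real_smul]
  -- the centred moments
  have hu : ∫ z in K, (z - c) = 0 := by
    rw [integral_sub (hci (fun z => z) continuous_id) (hci _ continuous_const), hconst, ← hM₁]
    linear_combination -hcA
  set S : ℂ := ∫ z in K, (z - c) ^ 2 with hS
  set N : ℝ := ∫ z in K, ‖z - c‖ ^ 2 with hNdef
  have hN : 1 / 2 ≤ N := N_ge K hK hD c
  have hSe : S = M₂ - c ^ 2 * A := by
    have h6 : (fun z : ℂ => (z - c) ^ 2) = fun z => z ^ 2 - (2 * c) * z + c ^ 2 := by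
      ext z; ring
    rw [hS, h6, integral_add, integral_sub, integral_const_mul, hconst, ← hM₂, ← hM₁]
    · linear_combination (2 * c) * hcA
    · exact hci _ (by fun_prop)
    · exact hci _ (by fun_prop)
    · exact hci _ (by fun_prop)
    · exact hci _ (by fun_prop)
  have hSn : ‖S‖ ≤ 8 * ε := by
    rw [hSe]
    have h6 : ‖M₂ - c ^ 2 * (A : ℂ)‖ ≤ ‖M₂‖ + ‖c‖ ^ 2 * A := by
      refine (norm_sub_le _ _).trans ?_
      rw [norm_mul, norm_pow, Complex.norm_real, Real.norm_of_nonneg hApos.le]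
    have h7 : ‖c‖ ^ 2 ≤ (3 * ε) ^ 2 := pow_le_pow_left₀ (norm_nonneg _) hcn 2
    have h8 : ‖c‖ ^ 2 * A ≤ (3 * ε) ^ 2 * 4 := by
      apply mul_le_mul h7 hA4 hApos.le (by positivity)
    nlinarith
  obtain ⟨β₀, hβ₀, hβq⟩ := quad_root S N (8 * ε) hN hSn (by linarith)
  have hβn := norm_nonneg β₀
  have hβ1 : ‖β₀‖ ≤ 16 * ε := by linarith
  have hβ2 : ‖β₀‖ ≤ 16 / 1000 := by linarith
  set b : ℝ := ‖β₀‖ with hb
  have h1b : 0 < 1 - b ^ 2 := by nlinarith
  -- the scaling factor
  have hq0 : 0 < Real.pi / ((1 - b ^ 2) * A) := by positivity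
  set ρ : ℝ := Real.sqrt (Real.pi / ((1 - b ^ 2) * A)) with hρ
  have hρ0 : 0 < ρ := Real.sqrt_pos.2 hq0
  have hρ2 : ρ ^ 2 * ((1 - b ^ 2) * A) = Real.pi := by
    rw [hρ, Real.sq_sqrt hq0.le]
    field_simp
  have hρu : ρ ≤ 1 + b := by
    have h6 : ρ ^ 2 ≤ (1 + b) ^ 2 := by
      have h7 : ρ ^ 2 * (1 - b ^ 2) ≤ 1 := by
        have h8 : ρ ^ 2 * (1 - b ^ 2) * A ≤ 1 * A := by
          have : ρ ^ 2 * (1 - b ^ 2) * A = Real.pi := by rw [← hρ2]; ring
          rw [this]; linarith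
        exact le_of_mul_le_mul_right h8 hApos
      have h9 : 1 ≤ (1 + b) ^ 2 * (1 - b ^ 2) := by nlinarith [mul_nonneg hβn hβn]
      have h10 : ρ ^ 2 * (1 - b ^ 2) ≤ (1 + b) ^ 2 * (1 - b ^ 2) := h7.trans h9
      exact le_of_mul_le_mul_right h10 h1b
    exact le_of_sq_le_sq h6 (by linarith)
  have hρl : 1 ≤ ρ * (1 + ε) := by
    have h6 : 1 ^ 2 ≤ (ρ * (1 + ε)) ^ 2 := by
      have h7 : Real.pi ≤ ρ ^ 2 * (Real.pi * (1 + ε) ^ 2) := by
        calc Real.pi = ρ ^ 2 * ((1 - b ^ 2) * A) := hρ2.symm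
          _ ≤ ρ ^ 2 * (1 * A) := by
            apply mul_le_mul_of_nonneg_left _ (by positivity)
            apply mul_le_mul_of_nonneg_right _ hApos.le
            nlinarith
          _ ≤ ρ ^ 2 * (Real.pi * (1 + ε) ^ 2) := by
            apply mul_le_mul_of_nonneg_left _ (by positivity)
            linarith
      have h8 : Real.pi * 1 ≤ Real.pi * (ρ * (1 + ε)) ^ 2 := by
        rw [mul_one]
        refine h7.trans (le_of_eq ?_)
        ring
      have h9 := le_of_mul_le_mul_left h8 hpi0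
      linarith
    exact le_of_sq_le_sq h6 (by positivity)
  -- the map
  have hαβ : ‖(ρ : ℂ) * β₀‖ < ‖(ρ : ℂ)‖ := by
    rw [norm_mul, Complex.norm_real, Real.norm_of_nonneg hρ0.le]
    nlinarith
  set b' : ℂ := -((ρ : ℂ) * (c + β₀ * (starRingEnd ℂ) c)) with hb'
  have hf : ∀ z, aff (ρ : ℂ) (ρ * β₀) b' z =
      (ρ : ℂ) * ((z - c) + β₀ * (starRingEnd ℂ) (z - c)) := by
    intro z
    simp only [aff, hb', map_sub]
    ring
  refine ⟨(ρ : ℂ), ρ * β₀, b', hαβ, ?_, ?_, ?_, ?_, ?_⟩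
  · -- inner ball
    intro y hy
    rw [mem_closedBall_zero_iff] at hy
    have h1bc : ((1 - b ^ 2 : ℝ) : ℂ) ≠ 0 := by exact_mod_cast h1b.ne'
    have hρc : (ρ : ℂ) ≠ 0 := by exact_mod_cast hρ0.ne'
    have hbb : β₀ * (starRingEnd ℂ) β₀ = ((b ^ 2 : ℝ) : ℂ) := by rw [nm_sq, hb]
    set v : ℂ := (y - β₀ * (starRingEnd ℂ) y) / ((ρ : ℂ) * ((1 - b ^ 2 : ℝ) : ℂ)) with hv
    refine ⟨c + v, ?_, ?_⟩
    · apply hD
      rw [mem_closedBall_zero_iff]
      have h6 : ‖v‖ ≤ ‖y‖ * (1 + b) / (ρ * (1 - b ^ 2)) := by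
        rw [hv, norm_div, norm_mul, Complex.norm_real, Complex.norm_real,
          Real.norm_of_nonneg hρ0.le, Real.norm_of_nonneg h1b.le]
        apply div_le_div_of_nonneg_right _ (by positivity)
        refine (norm_sub_le _ _).trans ?_
        rw [norm_mul, Complex.norm_conj]
        linarith
      have h7 : ‖y‖ * (1 + b) / (ρ * (1 - b ^ 2)) = ‖y‖ / (ρ * (1 - b)) := by
        have : (1 - b) ≠ 0 := by nlinarith
        have : (1 + b) ≠ 0 := by nlinarith
        have h8 : 1 - b ^ 2 = (1 - b) * (1 + b) := by ring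
        rw [h8]
        field_simp
      have h8 : ‖y‖ / (ρ * (1 - b)) ≤ 1 - 3 * ε := by
        have h9 : 0 < ρ * (1 - b) := mul_pos hρ0 (by linarith)
        rw [div_le_iff₀ h9]
        have h10 : (1 - 3 * ε) * (ρ * (1 - b)) * (1 + ε) ≥ (1 - 3 * ε) * (1 - b) := by
          have : (1 - 3 * ε) * (ρ * (1 - b)) * (1 + ε) =
            ((1 - 3 * ε) * (1 - b)) * (ρ * (1 + ε)) := by ring
          rw [this]
          have h11 : 0 ≤ (1 - 3 * ε) * (1 - b) := mul_nonneg (by linarith) (by linarith)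
          nlinarith
        have h12 : ‖y‖ * (1 + ε) ≤ (1 - 3 * ε) * (1 - b) := by
          have h13 : ‖y‖ * (1 + ε) ≤ (1 - 100 * ε) * (1 + ε) :=
            mul_le_mul_of_nonneg_right hy (by linarith)
          nlinarith [mul_nonneg hε0 hβn, mul_nonneg hε0 hε0]
        have h14 : ‖y‖ * (1 + ε) ≤ (1 - 3 * ε) * (ρ * (1 - b)) * (1 + ε) := h12.trans h10
        exact le_of_mul_le_mul_right h14 (by linarith)
      calc ‖c + v‖ ≤ ‖c‖ + ‖v‖ := norm_add_le _ _
        _ ≤ 3 * ε + (1 - 3 * ε) := by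
          rw [h7] at h6
          linarith
        _ = 1 := by ring
    · rw [hf]
      have e1 : c + v - c = v := by ring
      rw [e1]
      have e2 : (starRingEnd ℂ) v =
          ((starRingEnd ℂ) y - (starRingEnd ℂ) β₀ * y) / ((ρ : ℂ) * ((1 - b ^ 2 : ℝ) : ℂ)) := by
        rw [hv]
        simp only [map_div₀, map_sub, map_mul, Complex.conj_conj, Complex.conj_ofReal]
      have e3 : (((1 - b ^ 2 : ℝ)) : ℂ) = 1 - β₀ * (starRingEnd ℂ) β₀ := by
        rw [hbb]; push_cast; ring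
      rw [e2, hv]
      rw [e3] at h1bc ⊢
      field_simp
      ring
  · -- outer ball
    rintro _ ⟨z, hz, rfl⟩
    rw [mem_closedBall_zero_iff, hf, norm_mul, Complex.norm_real, Real.norm_of_nonneg hρ0.le]
    have h6 : ‖z - c + β₀ * (starRingEnd ℂ) (z - c)‖ ≤ (1 + b) * (1 + ε + 3 * ε) := by
      have h7 : ‖z - c‖ ≤ 1 + ε + 3 * ε := (norm_sub_le _ _).trans (by
        have := hnK z hz
        linarith)
      refine (norm_add_le _ _).trans ?_
      rw [norm_mul, Complex.norm_conj, ← hb]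
      have h8 : (1 + b) * ‖z - c‖ ≤ (1 + b) * (1 + ε + 3 * ε) :=
        mul_le_mul_of_nonneg_left h7 (by linarith)
      linarith
    calc ρ * ‖z - c + β₀ * (starRingEnd ℂ) (z - c)‖
        ≤ (1 + b) * ((1 + b) * (1 + ε + 3 * ε)) := by
          apply mul_le_mul hρu h6 (norm_nonneg _) (by linarith)
      _ ≤ 1 + 100 * ε := by
          have h9 : (1 + b) * (1 + b) ≤ 1 + 33 * ε := by nlinarith
          have h10 : 0 ≤ 1 + ε + 3 * ε := by linarith
          have h11 := mul_le_mul_of_nonneg_right h9 h10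
          nlinarith
  · -- area
    rw [(hA K (ρ : ℂ) (ρ * β₀) b' hK hαβ).2.1, ← hAdef, norm_mul, Complex.norm_real,
      Real.norm_of_nonneg hρ0.le, ← hb, ← hρ2]
    ring
  · -- first moment
    apply int_aff K hK _ _ _ hαβ (fun z => z)
    have h6 : (fun z => aff (ρ : ℂ) (ρ * β₀) b' z) =
        fun z => (ρ : ℂ) * ((z - c) + β₀ * (starRingEnd ℂ) (z - c)) := funext hf
    show ∫ z in K, aff (ρ : ℂ) (ρ * β₀) b' z = 0
    rw [h6, integral_const_mul, integral_add, integral_const_mul, integral_conj, hu]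
    · simp
    · exact hci _ (by fun_prop)
    · exact hci _ (by fun_prop)
  · -- second moment
    apply int_aff K hK _ _ _ hαβ (fun z => z ^ 2)
    have h6 : (fun z => (aff (ρ : ℂ) (ρ * β₀) b' z) ^ 2) =
        fun z => (ρ : ℂ) ^ 2 * ((z - c) ^ 2 + (2 * β₀) * ((‖z - c‖ ^ 2 : ℝ) : ℂ) +
          β₀ ^ 2 * (starRingEnd ℂ) ((z - c) ^ 2)) := by
      ext z
      rw [hf, ← nm_sq, map_pow]
      ring
    show ∫ z in K, (aff (ρ : ℂ) (ρ * β₀) b' z) ^ 2 = 0
    rw [h6, integral_const_mul, integral_add, integral_add, integral_const_mul,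
      integral_const_mul, integral_conj, integral_complex_ofReal, ← hS, ← hNdef]
    · linear_combination (ρ : ℂ) ^ 2 * hβq
    · exact hci _ (by fun_prop)
    · exact hci _ (by fun_prop)
    · exact hci _ (by fun_prop)
    · exact hci _ (by fun_prop)

end Pool.Agent.Helper97.LT
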