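import Pool.Agent.Helper49.LT.StC

/-! MODULE LIN of project LT: cancellation of the linear terms. -/

set_option autoImplicit false

open MeasureTheory Set Filter Metric
open scoped Topology

namespace Pool.Agent.Helper97.LT

open Helper49.LT

/-! ### coordinates as linear forms -/

private noncomputable def K3 : ℂ × ℂ →L[ℝ] ℝ := Complex.reCLM.comp (ContinuousLinearMap.fst ℝ ℂ ℂ)
private noncomputable def S3 : ℂ × ℂ →L[ℝ] ℝ :=
  -(Complex.imCLM.comp (ContinuousLinearMap.fst ℝ ℂ ℂ))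
private noncomputable def K5 : ℂ × ℂ →L[ℝ] ℝ := Complex.reCLM.comp (ContinuousLinearMap.snd ℝ ℂ ℂ)
private noncomputable def S5 : ℂ × ℂ →L[ℝ] ℝ :=
  -(Complex.imCLM.comp (ContinuousLinearMap.snd ℝ ℂ ℂ))

private theorem K3_apply (v : ℂ × ℂ) : K3 v = k3 v := by simp [K3, k3]
private theorem S3_apply (v : ℂ × ℂ) : S3 v = s3 v := by simp [S3, s3]
private theorem K5_apply (v : ℂ × ℂ) : K5 v = k5 v := by simp [K5, k5]
private theorem S5_apply (v : ℂ × ℂ) : S5 v = s5 v := by simp [S5, s5]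

private theorem cd_k3 : ContDiff ℝ 4 k3 := by
  have : k3 = fun v => K3 v := funext fun v => (K3_apply v).symm
  rw [this]; exact K3.contDiff
private theorem cd_s3 : ContDiff ℝ 4 s3 := by
  have : s3 = fun v => S3 v := funext fun v => (S3_apply v).symm
  rw [this]; exact S3.contDiff
private theorem cd_k5 : ContDiff ℝ 4 k5 := by
  have : k5 = fun v => K5 v := funext fun v => (K5_apply v).symm
  rw [this]; exact K5.contDiff
private theorem cd_s5 : ContDiff ℝ 4 s5 := by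
  have : s5 = fun v => S5 v := funext fun v => (S5_apply v).symm
  rw [this]; exact S5.contDiff

private theorem bO_k3 : k3 =O[𝓝 (0 : ℂ × ℂ)] fun v => ‖v‖ :=
  Asymptotics.IsBigO.of_bound 1 (Eventually.of_forall fun v => by
    rw [one_mul, norm_norm, Real.norm_eq_abs]
    exact (abs_k3 v).trans (norm_fst_le v))
private theorem bO_s3 : s3 =O[𝓝 (0 : ℂ × ℂ)] fun v => ‖v‖ :=
  Asymptotics.IsBigO.of_bound 1 (Eventually.of_forall fun v => by
    rw [one_mul, norm_norm, Real.norm_eq_abs]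
    exact (abs_s3 v).trans (norm_fst_le v))
private theorem bO_k5 : k5 =O[𝓝 (0 : ℂ × ℂ)] fun v => ‖v‖ :=
  Asymptotics.IsBigO.of_bound 1 (Eventually.of_forall fun v => by
    rw [one_mul, norm_norm, Real.norm_eq_abs]
    exact (abs_k5 v).trans (norm_snd_le v))
private theorem bO_s5 : s5 =O[𝓝 (0 : ℂ × ℂ)] fun v => ‖v‖ :=
  Asymptotics.IsBigO.of_bound 1 (Eventually.of_forall fun v => by
    rw [one_mul, norm_norm, Real.norm_eq_abs]
    exact (abs_s5 v).trans (norm_snd_le v))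

/-! ### first order expansions -/

/-- `f = 1 + L + O(‖v‖²)` with `L = O(‖v‖)` -/
private def J (f L : ℂ × ℂ → ℝ) : Prop :=
  ((fun v => f v - 1 - L v) =O[𝓝 (0 : ℂ × ℂ)] fun v => ‖v‖ ^ 2) ∧
    L =O[𝓝 (0 : ℂ × ℂ)] fun v => ‖v‖

private theorem bO_small : (fun v : ℂ × ℂ => ‖v‖) =O[𝓝 (0 : ℂ × ℂ)] fun _ => (1 : ℝ) := by
  have h : Tendsto (fun v : ℂ × ℂ => ‖v‖) (𝓝 0) (𝓝 ‖(0 : ℂ × ℂ)‖) :=
    continuous_norm.tendsto 0
  exact h.isBigO_one ℝ

private theorem bO_sq {f g : ℂ × ℂ → ℝ} (hf : f =O[𝓝 (0 : ℂ × ℂ)] fun v => ‖v‖)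
    (hg : g =O[𝓝 (0 : ℂ × ℂ)] fun v => ‖v‖) :
    (fun v => f v * g v) =O[𝓝 (0 : ℂ × ℂ)] fun v => ‖v‖ ^ 2 := by
  refine (hf.mul hg).congr_right ?_
  intro v; ring

private theorem bO_mul1 {f g : ℂ × ℂ → ℝ} (hf : f =O[𝓝 (0 : ℂ × ℂ)] fun v => ‖v‖ ^ 2)
    (hg : g =O[𝓝 (0 : ℂ × ℂ)] fun _ => (1 : ℝ)) :
    (fun v => f v * g v) =O[𝓝 (0 : ℂ × ℂ)] fun v => ‖v‖ ^ 2 := by
  refine (hf.mul hg).congr_right ?_
  intro v; ring

private theorem J_bdd {f L : ℂ × ℂ → ℝ} (hf : J f L) :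
    f =O[𝓝 (0 : ℂ × ℂ)] fun _ => (1 : ℝ) := by
  have h1 : (fun v : ℂ × ℂ => ‖v‖ ^ 2) =O[𝓝 (0 : ℂ × ℂ)] fun _ => (1 : ℝ) := by
    refine (bO_small.mul bO_small).congr ?_ ?_
    · intro v; ring
    · intro v; ring
  have h2 := (hf.1.trans h1).add
    ((Asymptotics.isBigO_refl (fun _ : ℂ × ℂ => (1 : ℝ)) _).add (hf.2.trans bO_small))
  refine h2.congr_left ?_
  intro v
  ring

private theorem J_mul {f g L M : ℂ × ℂ → ℝ} (hf : J f L) (hg : J g M) :
    J (fun v => f v * g v) (fun v => L v + M v) := by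
  refine ⟨?_, hf.2.add hg.2⟩
  have h1 := bO_mul1 hf.1 (J_bdd hg)
  have h2 : (fun v => (g v - 1 - M v) * (1 + L v)) =O[𝓝 (0 : ℂ × ℂ)] fun v => ‖v‖ ^ 2 :=
    bO_mul1 hg.1 ((Asymptotics.isBigO_refl (fun _ : ℂ × ℂ => (1 : ℝ)) _).add
      (hf.2.trans bO_small))
  have h3 := bO_sq hf.2 hg.2
  refine ((h1.add h2).add h3).congr_left ?_
  intro v
  simp only
  ring

private theorem J_inv {f L : ℂ × ℂ → ℝ} (hf : J f L) :
    J (fun v => (f v)⁻¹) (fun v => -L v) := by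
  refine ⟨?_, hf.2.neg_left⟩
  have h0 : Tendsto f (𝓝 0) (𝓝 1) := by
    have h1 : (fun v => f v - 1) =O[𝓝 (0 : ℂ × ℂ)] fun v => ‖v‖ := by
      have h2 : (fun v : ℂ × ℂ => ‖v‖ ^ 2) =O[𝓝 (0 : ℂ × ℂ)] fun v => ‖v‖ := by
        refine ((Asymptotics.isBigO_refl (fun v : ℂ × ℂ => ‖v‖) _).mul bO_small).congr ?_ ?_
        · intro v; ring
        · intro v; ring
      refine ((hf.1.trans h2).add hf.2).congr_left ?_
      intro v
      ring
    have h3 : Tendsto (fun v => f v - 1) (𝓝 (0 : ℂ × ℂ)) (𝓝 0) := by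
      apply h1.trans_tendsto
      have : Tendsto (fun v : ℂ × ℂ => ‖v‖) (𝓝 0) (𝓝 ‖(0 : ℂ × ℂ)‖) := continuous_norm.tendsto 0
      rwa [norm_zero] at this
    have h4 := h3.add_const 1
    simpa using h4
  have hne : ∀ᶠ v in 𝓝 (0 : ℂ × ℂ), f v ≠ 0 := h0.eventually_ne one_ne_zero
  have hi : (fun v => (f v)⁻¹) =O[𝓝 (0 : ℂ × ℂ)] fun _ => (1 : ℝ) :=
    (h0.inv₀ one_ne_zero).isBigO_one ℝ
  -- `1/f - 1 + L = (1 - f (1 - L)) / f = (L² - (f-1-L)(1-L)) / f`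
  have h5 : (fun v => (L v * L v - (f v - 1 - L v) * (1 - L v)) * (f v)⁻¹)
      =O[𝓝 (0 : ℂ × ℂ)] fun v => ‖v‖ ^ 2 := by
    apply bO_mul1 _ hi
    apply (bO_sq hf.2 hf.2).sub
    exact bO_mul1 hf.1 ((Asymptotics.isBigO_refl (fun _ : ℂ × ℂ => (1 : ℝ)) _).sub
      (hf.2.trans bO_small))
  refine h5.congr' ?_ EventuallyEq.rfl
  filter_upwards [hne] with v hv
  field_simp
  ring

private theorem J_bound {f L : ℂ × ℂ → ℝ} (hf : J f L) : ∃ C r : ℝ, 0 < r ∧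
    ∀ v ∈ ball (0 : ℂ × ℂ) r, |f v - 1 - L v| ≤ C * ‖v‖ ^ 2 := by
  obtain ⟨c, hc⟩ := hf.1.bound
  obtain ⟨r, hr, hb⟩ := Metric.eventually_nhds_iff_ball.1 hc
  refine ⟨c, r, hr, ?_⟩
  intro v hv
  have := hb v hv
  rwa [Real.norm_eq_abs, Real.norm_eq_abs, abs_of_nonneg (sq_nonneg ‖v‖)] at this

/-! ### the function `kt` -/

private noncomputable def qv (v : ℂ × ℂ) : ℝ :=
  (1 - 2 * k3 v - 4 * k5 v) ^ 2 + (2 * s3 v + 4 * s5 v) ^ 2

private noncomputable def Pv (v : ℂ × ℂ) : ℝ :=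
  (1 - 2 * k3 v - 4 * k5 v) * (1 + 4 * k3 v + 16 * k5 v)
    - (2 * s3 v + 4 * s5 v) * (4 * s3 v + 16 * s5 v)

private theorem sg_eq (v : ℂ × ℂ) : sg v = Real.sqrt (qv v) := by
  unfold sg
  rw [Complex.norm_def]
  congr 1
  rw [Complex.normSq_apply]
  simp [qv, k3, k5, s3, s5]
  ring

private theorem kt_eq (v : ℂ × ℂ) : kt v = h0 v * Pv v * (Real.sqrt (qv v) ^ 3)⁻¹ := by
  unfold kt
  rw [← sg_eq, div_eq_mul_inv]
  congr 2
  simp [Pv, k3, k5, s3, s5]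
  ring

private theorem qv_pos (v : ℂ × ℂ) (hv : ‖v‖ < 1 / 20) : 0 < qv v := by
  have h1 := (abs_k3 v).trans (norm_fst_le v)
  have h2 := (abs_k5 v).trans (norm_snd_le v)
  have h3 := abs_le.1 h1
  have h4 := abs_le.1 h2
  have h5 : 0 < 1 - 2 * k3 v - 4 * k5 v := by linarith
  unfold qv
  positivity

private theorem cd_h0 : ContDiff ℝ 4 h0 := by
  have h1 := cd_k3
  have h2 := cd_k5
  have h3 := cd_s3
  have h4 := cd_s5
  unfold h0
  fun_prop

private theorem cd_kt : ContDiffOn ℝ 4 kt (ball 0 (1 / 20)) := by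
  have h1 := cd_k3
  have h2 := cd_k5
  have h3 := cd_s3
  have h4 := cd_s5
  have hq : ContDiff ℝ 4 qv := by
    unfold qv
    fun_prop
  have hP : ContDiff ℝ 4 Pv := by
    unfold Pv
    fun_prop
  have e : kt = fun v => h0 v * Pv v * (Real.sqrt (qv v) ^ 3)⁻¹ := funext kt_eq
  rw [e]
  apply ContDiffOn.mul (cd_h0.mul hP).contDiffOn
  apply ContDiffOn.inv
  · apply ContDiffOn.pow
    apply ContDiffOn.sqrt hq.contDiffOn
    intro v hv
    rw [mem_ball_zero_iff] at hv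
    exact (qv_pos v hv).ne'
  · intro v hv
    rw [mem_ball_zero_iff] at hv
    have := Real.sqrt_pos.2 (qv_pos v hv)
    positivity

private theorem J_h0 : J h0 (fun v => -k3 v - 3 * k5 v) := by
  refine ⟨?_, (bO_k3.neg_left).sub (bO_k5.const_mul_left 3)⟩
  have h1 := bO_sq bO_k3 bO_k3
  have h2 := bO_sq bO_s3 bO_s3
  have h3 := bO_sq bO_k5 bO_k5
  have h4 := bO_sq bO_s5 bO_s5
  have h5 := bO_sq bO_k3 bO_k5
  have h6 := bO_sq bO_s3 bO_s5
  have h7 := ((((h1.add h2).const_mul_left (-2)).add ((h3.add h4).const_mul_left (-4))).add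
    ((h5.add h6).const_mul_left (-6)))
  refine h7.congr_left ?_
  intro v
  simp only [h0]
  ring

private theorem J_Pv : J Pv (fun v => 2 * k3 v + 12 * k5 v) := by
  refine ⟨?_, (bO_k3.const_mul_left 2).add (bO_k5.const_mul_left 12)⟩
  have h1 := bO_sq bO_k3 bO_k3
  have h2 := bO_sq bO_s3 bO_s3
  have h3 := bO_sq bO_k5 bO_k5
  have h4 := bO_sq bO_s5 bO_s5
  have h5 := bO_sq bO_k3 bO_k5
  have h6 := bO_sq bO_s3 bO_s5
  have h7 := ((((h1.add h2).const_mul_left (-8)).add ((h3.add h4).const_mul_left (-64))).add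
    ((h5.add h6).const_mul_left (-48)))
  refine h7.congr_left ?_
  intro v
  simp only [Pv]
  ring

private theorem J_sg : J (fun v => Real.sqrt (qv v)) (fun v => -2 * k3 v - 4 * k5 v) := by
  refine ⟨?_, (bO_k3.const_mul_left (-2)).sub (bO_k5.const_mul_left 4)⟩
  have h0 : (fun v => (2 * s3 v + 4 * s5 v) * (2 * s3 v + 4 * s5 v)) =O[𝓝 (0 : ℂ × ℂ)]
      fun v => ‖v‖ ^ 2 :=
    bO_sq ((bO_s3.const_mul_left 2).add (bO_s5.const_mul_left 4))
      ((bO_s3.const_mul_left 2).add (bO_s5.const_mul_left 4))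
  refine Asymptotics.IsBigO.trans ?_ h0
  apply Asymptotics.IsBigO.of_bound 1
  filter_upwards [ball_mem_nhds (0 : ℂ × ℂ) (by norm_num : (0 : ℝ) < 1 / 20)] with v hv
  rw [mem_ball_zero_iff] at hv
  have h1 := (abs_k3 v).trans (norm_fst_le v)
  have h2 := (abs_k5 v).trans (norm_snd_le v)
  have h3 := abs_le.1 h1
  have h4 := abs_le.1 h2
  set a : ℝ := 1 - 2 * k3 v - 4 * k5 v with ha
  set b : ℝ := 2 * s3 v + 4 * s5 v with hb
  have ha1 : 1 / 2 ≤ a := by linarith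
  have hq : qv v = a ^ 2 + b ^ 2 := rfl
  have l1 : a ≤ Real.sqrt (qv v) := by
    apply Real.le_sqrt_of_sq_le
    rw [hq]
    nlinarith
  have l2 : Real.sqrt (qv v) ≤ a + b ^ 2 := by
    rw [Real.sqrt_le_left (by positivity), hq]
    nlinarith [sq_nonneg b, sq_nonneg (b ^ 2)]
  rw [one_mul, Real.norm_eq_abs, Real.norm_eq_abs, abs_mul_self]
  have e : Real.sqrt (qv v) - 1 - (-2 * k3 v - 4 * k5 v) = Real.sqrt (qv v) - a := by
    rw [ha]; ring
  rw [e, abs_of_nonneg (by linarith)]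
  nlinarith

private theorem J_kt : J kt (fun v => 7 * k3 v + 21 * k5 v) := by
  have h1 := J_mul (J_mul J_h0 J_Pv) (J_inv (J_mul (J_mul J_sg J_sg) J_sg))
  have e : kt = fun v => h0 v * Pv v * (Real.sqrt (qv v) * Real.sqrt (qv v) *
      Real.sqrt (qv v))⁻¹ := by
    funext v
    rw [kt_eq]
    congr 2
    ring
  rw [e]
  have e2 : (fun v => 7 * k3 v + 21 * k5 v) = fun v => -k3 v - 3 * k5 v +
      (2 * k3 v + 12 * k5 v) + -(-2 * k3 v - 4 * k5 v + (-2 * k3 v - 4 * k5 v) +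
        (-2 * k3 v - 4 * k5 v)) := by
    funext v; ring
  rw [e2]
  exact h1

/-! ### the rotations by `±π/3` -/

private theorem ee_m3 (σ : ℝ) (h : σ = Real.pi / 3 ∨ σ = -(Real.pi / 3)) :
    ee (-3 * (-σ)) = -1 := by
  rcases h with rfl | rfl
  · have : -3 * -(Real.pi / 3) = Real.pi := by ring
    rw [this, ee_pi]
  · have : -3 * - -(Real.pi / 3) = -Real.pi := by ring
    rw [this, ee_neg, ee_pi]
    simp

private theorem ee_m5p : ee (-5 * (-(Real.pi / 3))) =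
    ((1 / 2 : ℝ) : ℂ) - ((Real.sqrt 3 / 2 : ℝ) : ℂ) * Complex.I := by
  have e : -5 * -(Real.pi / 3) = -(Real.pi / 3) + 2 * Real.pi := by ring
  rw [e, ee_per, ee_neg, ee_eq, Real.cos_pi_div_three, Real.sin_pi_div_three]
  simp only [map_add, map_mul, Complex.conj_ofReal, Complex.conj_I]
  ring

private theorem ee_m5m : ee (-5 * (-(-(Real.pi / 3)))) =
    ((1 / 2 : ℝ) : ℂ) + ((Real.sqrt 3 / 2 : ℝ) : ℂ) * Complex.I := by
  have e : Real.pi / 3 = -5 * -(-(Real.pi / 3)) + 2 * Real.pi := by ring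
  rw [← ee_per, ← e, ee_eq, Real.cos_pi_div_three, Real.sin_pi_div_three]

private theorem two_forms (y : ℂ × ℂ) (c : ℂ) (m : ℝ) (z : ℂ × ℂ)
    (hc : c = ((1 / 2 : ℝ) : ℂ) - ((m : ℝ) : ℂ) * Complex.I)
    (hz : z = (-1 * y.1, c * y.2)) :
    k3 z = -k3 y ∧ s3 z = -s3 y ∧ k5 z = k5 y / 2 - m * s5 y ∧ s5 z = m * k5 y + s5 y / 2 := by
  rw [hz]
  refine ⟨?_, ?_, ?_, ?_⟩
  · simp [k3]
  · simp [s3]
  · rw [hc]; simp [k5, s5]; ring
  · rw [hc]; simp [k5, s5]; ring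

private theorem gen_forms (z : ℂ × ℂ) :
    k3 (-3 * Complex.I * z.1, -5 * Complex.I * z.2) = -3 * s3 z ∧
    s3 (-3 * Complex.I * z.1, -5 * Complex.I * z.2) = 3 * k3 z ∧
    k5 (-3 * Complex.I * z.1, -5 * Complex.I * z.2) = -5 * s5 z ∧
    s5 (-3 * Complex.I * z.1, -5 * Complex.I * z.2) = 5 * k5 z := by
  refine ⟨?_, ?_, ?_, ?_⟩ <;> simp [k3, s3, k5, s5]

private theorem norm_pair0 (v : ℂ × ℂ) : ‖((v, (0 : ℝ × ℝ)) : (ℂ × ℂ) × (ℝ × ℝ))‖ = ‖v‖ := by
  rw [Prod.norm_def]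
  simp only [norm_zero]
  exact max_eq_left (norm_nonneg v)

/-- the first order data of the first end point -/
private noncomputable def KP (e : ℝ) : ℂ × ℂ →L[ℝ] ℝ :=
  (2 : ℝ) • K3 + (e * Real.sqrt 3) • S3 - (17 / 2 : ℝ) • K5 - (e * (Real.sqrt 3 / 2)) • S5
private noncomputable def SP (e : ℝ) : ℂ × ℂ →L[ℝ] ℝ :=
  (e * Real.sqrt 3) • K3 - S3 - (e * Real.sqrt 3) • K5 + S5

private theorem KP_apply (e : ℝ) (v : ℂ × ℂ) : KP e v = 2 * k3 v + e * Real.sqrt 3 * s3 v -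
    17 / 2 * k5 v - e * (Real.sqrt 3 / 2) * s5 v := by
  simp [KP, K3_apply, S3_apply, K5_apply, S5_apply]
private theorem SP_apply (e : ℝ) (v : ℂ × ℂ) : SP e v = e * Real.sqrt 3 * k3 v - s3 v -
    e * Real.sqrt 3 * k5 v + s5 v := by
  simp [SP, K3_apply, S3_apply, K5_apply, S5_apply]

/-- the linear form which results from the end point `e = ±1` -/
private theorem form_end (e σ : ℝ) (he : (e = 1 ∧ σ = Real.pi / 3) ∨
    (e = -1 ∧ σ = -(Real.pi / 3))) (y : ℂ × ℂ) :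
    KP e (rot (-σ) y) - SP e (-3 * Complex.I * (rot (-σ) y).1, -5 * Complex.I * (rot (-σ) y).2) =
      -5 * k3 y - e * (4 * Real.sqrt 3) * s3 y - 15 * k5 y + e * (4 * Real.sqrt 3) * s5 y := by
  have h3 : Real.sqrt 3 * Real.sqrt 3 = 3 := Real.mul_self_sqrt (by norm_num)
  obtain ⟨g1, g2, g3, g4⟩ := gen_forms (rot (-σ) y)
  rw [KP_apply, SP_apply, g1, g2, g3, g4]
  rcases he with ⟨rfl, rfl⟩ | ⟨rfl, rfl⟩
  · obtain ⟨t1, t2, t3, t4⟩ := two_forms y _ (Real.sqrt 3 / 2) (rot (-(Real.pi / 3)) y) ee_m5p (by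
      simp only [rot]
      rw [ee_m3 _ (Or.inl rfl)])
    rw [t1, t2, t3, t4]
    linear_combination (-(11 / 4) * k5 y) * h3
  · obtain ⟨t1, t2, t3, t4⟩ := two_forms y (ee (-5 * (-(-(Real.pi / 3))))) (-(Real.sqrt 3 / 2))
      (rot (-(-(Real.pi / 3))) y) (by rw [ee_m5m]; push_cast; ring) (by
      simp only [rot]
      rw [ee_m3 _ (Or.inr rfl)])
    rw [t1, t2, t3, t4]
    linear_combination (-(11 / 4) * k5 y) * h3

theorem hLIN (h₁ : StJet) (h₂ : StKer) : StLin := by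
  intro r sp sm hC r' C' κp κm hr' hT
  obtain ⟨Cj, rj, hCj, hrj, hrjr, hjet⟩ := h₁ r sp sm hC
  obtain ⟨ck, rk, hrk, hkt⟩ := J_bound J_kt
  obtain ⟨ch, rh, hrh, hh⟩ := J_bound J_h0
  set ρ : ℝ := min (min r' rj) (min (min rk rh) (1 / 20)) with hρ
  have hρ0 : 0 < ρ := lt_min (lt_min hT.pos hrj) (lt_min (lt_min hrk hrh) (by norm_num))
  have i1 : ρ ≤ r' := (min_le_left _ _).trans (min_le_left _ _)
  have i2 : ρ ≤ rj := (min_le_left _ _).trans (min_le_right _ _)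
  have i3 : ρ ≤ rk := (min_le_right _ _).trans ((min_le_left _ _).trans (min_le_left _ _))
  have i4 : ρ ≤ rh := (min_le_right _ _).trans ((min_le_left _ _).trans (min_le_right _ _))
  have i5 : ρ ≤ 1 / 20 := (min_le_right _ _).trans (min_le_right _ _)
  have i6 : ρ ≤ r := i1.trans hr'
  set D : ℝ := max (max C' Cj) (max ck ch) with hD
  have d1 : C' ≤ D := (le_max_left _ _).trans (le_max_left _ _)
  have d2 : Cj ≤ D := (le_max_right _ _).trans (le_max_left _ _)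
  have d3 : ck ≤ D := (le_max_left _ _).trans (le_max_right _ _)
  have d4 : ch ≤ D := (le_max_right _ _).trans (le_max_right _ _)
  have hpi1 := Real.pi_gt_three
  have hpi2 := Real.pi_lt_d2
  have hp0 : ContDiff ℝ 4 (fun v : ℂ × ℂ => ((v, (0 : ℝ × ℝ)) : (ℂ × ℂ) × (ℝ × ℝ))) :=
    contDiff_id.prodMk contDiff_const
  have hmaps : ∀ R : ℝ, ρ ≤ R → MapsTo (fun v : ℂ × ℂ => ((v, (0 : ℝ × ℝ)) :
      (ℂ × ℂ) × (ℝ × ℝ))) (ball 0 ρ) (ball 0 R) := by
    intro R hR v hv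
    rw [mem_ball_zero_iff] at hv ⊢
    rw [norm_pair0]
    linarith
  have csp : ContDiffOn ℝ 4 (fun v : ℂ × ℂ => sp (v, 0)) (ball 0 ρ) :=
    (hC.cp.of_le (by norm_num)).comp hp0.contDiffOn (hmaps r i6)
  have csm : ContDiffOn ℝ 4 (fun v : ℂ × ℂ => sm (v, 0)) (ball 0 ρ) :=
    (hC.cm.of_le (by norm_num)).comp hp0.contDiffOn (hmaps r i6)
  have up : ∀ (C : ℝ) (v : ℂ × ℂ), C ≤ D → C * ‖v‖ ^ 2 ≤ D * ‖v‖ ^ 2 := fun C v h =>
    mul_le_mul_of_nonneg_right h (by positivity)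
  -- the first end point
  obtain ⟨c1, ρ1, hc1, hρ1, -, H1⟩ := h₂ κp (fun v => sp (v, 0)) ρ (Real.pi / 3) D (KP 1) (SP 1)
    hρ0 (hT.cp.mono (ball_subset_ball i1)) csp hT.vp hC.vp
    (by rw [abs_le]; constructor <;> linarith)
    (fun v hv => by
      have h := hT.kp v (ball_subset_ball i1 hv)
      have e : κp v - 1 - KP 1 v = κp v - (1 + (2 * k3 v + Real.sqrt 3 * s3 v - 17 / 2 * k5 v
          - Real.sqrt 3 / 2 * s5 v)) := by
        rw [KP_apply]; ring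
      rw [e]
      exact h.trans (up _ _ d1))
    (fun v hv => by
      have h := (hjet (v, 0) (hmaps rj i2 hv)).1
      rw [norm_pair0] at h
      have e : sp (v, 0) - Real.pi / 3 - SP 1 v = sp (v, 0) - (Real.pi / 3 + lsp (v, 0)) := by
        rw [SP_apply]
        simp only [lsp, Prod.fst_zero, Prod.snd_zero]
        ring
      rw [e]
      exact h.trans (up _ _ d2))
  -- the second end point
  obtain ⟨c2, ρ2, hc2, hρ2, -, H2⟩ := h₂ κm (fun v => sm (v, 0)) ρ (-(Real.pi / 3)) D (KP (-1))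
    (SP (-1)) hρ0 (hT.cm.mono (ball_subset_ball i1)) csm hT.vm hC.vm
    (by rw [abs_le]; constructor <;> linarith)
    (fun v hv => by
      have h := hT.km v (ball_subset_ball i1 hv)
      have e : κm v - 1 - KP (-1) v = κm v - (1 + (2 * k3 v - Real.sqrt 3 * s3 v - 17 / 2 * k5 v
          + Real.sqrt 3 / 2 * s5 v)) := by
        rw [KP_apply]; ring
      rw [e]
      exact h.trans (up _ _ d1))
    (fun v hv => by
      have h := (hjet (v, 0) (hmaps rj i2 hv)).2.1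
      rw [norm_pair0] at h
      have e : sm (v, 0) - -(Real.pi / 3) - SP (-1) v =
          sm (v, 0) - (-(Real.pi / 3) + lsm (v, 0)) := by
        rw [SP_apply]
        simp only [lsm, Prod.fst_zero, Prod.snd_zero]
        ring
      rw [e]
      exact h.trans (up _ _ d2))
  have zc : ContDiffOn ℝ 4 (fun _ : ℂ × ℂ => (0 : ℝ)) (ball 0 ρ) := contDiffOn_const
  have hD0 : 0 ≤ D := hCj.le.trans d2
  have zb : ∀ v ∈ ball (0 : ℂ × ℂ) ρ, |(0 : ℝ) - 0 - (0 : ℂ × ℂ →L[ℝ] ℝ) v| ≤ D * ‖v‖ ^ 2 := by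
    intro v _
    have : |(0 : ℝ) - 0 - (0 : ℂ × ℂ →L[ℝ] ℝ) v| = 0 := by simp
    rw [this]
    positivity
  have kt0 : kt 0 = 1 := by simp [kt, h0, sg, k3, k5, s3, s5]
  have h00 : h0 0 = 1 := by simp [h0, k3, k5, s3, s5]
  obtain ⟨c3, ρ3, hc3, hρ3, -, H3⟩ := h₂ kt (fun _ => 0) ρ 0 D ((7 : ℝ) • K3 + (21 : ℝ) • K5) 0
    hρ0 (cd_kt.mono (ball_subset_ball i5)) zc kt0 rfl (by norm_num)
    (fun v hv => by
      have h := hkt v (ball_subset_ball i3 hv)
      have e : kt v - 1 - ((7 : ℝ) • K3 + (21 : ℝ) • K5) v = kt v - 1 - (7 * k3 v + 21 * k5 v) := by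
        simp [K3_apply, K5_apply]
      rw [e]
      exact h.trans (up _ _ d3)) zb
  obtain ⟨c4, ρ4, hc4, hρ4, -, H4⟩ := h₂ h0 (fun _ => 0) ρ 0 D (-K3 - (3 : ℝ) • K5) 0
    hρ0 cd_h0.contDiffOn zc h00 rfl (by norm_num)
    (fun v hv => by
      have h := hh v (ball_subset_ball i4 hv)
      have e : h0 v - 1 - (-K3 - (3 : ℝ) • K5) v = h0 v - 1 - (-k3 v - 3 * k5 v) := by
        simp [K3_apply, K5_apply]
      rw [e]
      exact h.trans (up _ _ d4)) zb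
  set R : ℝ := min (min ρ1 ρ2) (min ρ3 ρ4) with hR
  have hR0 : 0 < R := lt_min (lt_min hρ1 hρ2) (lt_min hρ3 hρ4)
  refine ⟨c1 + c2 + c3 + 3 * c4, R / 2, by positivity, by linarith, ?_⟩
  intro x w hx hw hwp hw0
  have hxR : ‖x‖ < R := by linarith
  have x1 : ‖x‖ < ρ1 := hxR.trans_le ((min_le_left _ _).trans (min_le_left _ _))
  have x2 : ‖x‖ < ρ2 := hxR.trans_le ((min_le_left _ _).trans (min_le_right _ _))
  have x3 : ‖x‖ < ρ3 := hxR.trans_le ((min_le_right _ _).trans (min_le_left _ _))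
  have x4 : ‖x‖ < ρ4 := hxR.trans_le ((min_le_right _ _).trans (min_le_right _ _))
  have G1 := H1 x w x1 hw hwp hw0
  have G2 := H2 x w x2 hw hwp hw0
  have G3 := H3 x w x3 hw hwp hw0
  have G4 := H4 x w x4 hw hwp hw0
  clear H1 H2 H3 H4
  have hcc : ∀ f : ℂ × ℂ → ℝ, ContDiff ℝ 4 f → Continuous (fun t => w t * f (rot t x)) :=
    fun f hf => hw.mul (hf.continuous.comp (continuous_rot x))
  have hii : ∀ f : ℝ → ℝ, Continuous f → IntervalIntegrable f volume 0 (2 * Real.pi) :=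
    fun f hf => hf.intervalIntegrable _ _
  -- the four integrals of linear forms
  set Ω : ℝ := ‖x.1‖ ^ 2 * ‖wf w 6‖ + (‖x.1‖ * ‖x.2‖ + ‖x.2‖ ^ 2 + ‖x‖ ^ 3) * n1 w with hΩ
  set a3 : ℝ := ∫ t in (0 : ℝ)..(2 * Real.pi), w t * k3 (rot t x) with ha3
  set a5 : ℝ := ∫ t in (0 : ℝ)..(2 * Real.pi), w t * k5 (rot t x) with ha5
  set b3 : ℝ := ∫ t in (0 : ℝ)..(2 * Real.pi), w t * s3 (rot t x) with hb3
  set b5 : ℝ := ∫ t in (0 : ℝ)..(2 * Real.pi), w t * s5 (rot t x) with hb5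
  have comb : ∀ p q m n : ℝ, ∫ t in (0 : ℝ)..(2 * Real.pi),
      (p * (w t * k3 (rot t x)) + q * (w t * k5 (rot t x)) + m * (w t * s3 (rot t x)) +
        n * (w t * s5 (rot t x))) = p * a3 + q * a5 + m * b3 + n * b5 := by
    intro p q m n
    have q1 := hcc k3 cd_k3
    have q2 := hcc k5 cd_k5
    have q3 := hcc s3 cd_s3
    have q4 := hcc s5 cd_s5
    rw [intervalIntegral.integral_add
        (f := fun t => p * (w t * k3 (rot t x)) + q * (w t * k5 (rot t x)) +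
          m * (w t * s3 (rot t x))) (hii _ (by fun_prop)) (hii _ (by fun_prop)),
      intervalIntegral.integral_add
        (f := fun t => p * (w t * k3 (rot t x)) + q * (w t * k5 (rot t x)))
        (hii _ (by fun_prop)) (hii _ (by fun_prop)),
      intervalIntegral.integral_add (hii _ (by fun_prop)) (hii _ (by fun_prop)),
      intervalIntegral.integral_const_mul, intervalIntegral.integral_const_mul,
      intervalIntegral.integral_const_mul, intervalIntegral.integral_const_mul]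
  have f1 : ∫ t in (0 : ℝ)..(2 * Real.pi), w t * (KP 1 (rot (-(Real.pi / 3)) (rot t x))
        - SP 1 (-3 * Complex.I * (rot (-(Real.pi / 3)) (rot t x)).1,
              -5 * Complex.I * (rot (-(Real.pi / 3)) (rot t x)).2)) =
      -5 * a3 + -15 * a5 + -(4 * Real.sqrt 3) * b3 + (4 * Real.sqrt 3) * b5 := by
    rw [← comb]
    apply intervalIntegral.integral_congr
    intro t _
    simp only
    rw [form_end 1 (Real.pi / 3) (Or.inl ⟨rfl, rfl⟩)]
    ring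
  have f2 : ∫ t in (0 : ℝ)..(2 * Real.pi), w t * (KP (-1) (rot (-(-(Real.pi / 3))) (rot t x))
        - SP (-1) (-3 * Complex.I * (rot (-(-(Real.pi / 3))) (rot t x)).1,
              -5 * Complex.I * (rot (-(-(Real.pi / 3))) (rot t x)).2)) =
      -5 * a3 + -15 * a5 + (4 * Real.sqrt 3) * b3 + -(4 * Real.sqrt 3) * b5 := by
    rw [← comb]
    apply intervalIntegral.integral_congr
    intro t _
    simp only
    rw [form_end (-1) (-(Real.pi / 3)) (Or.inr ⟨rfl, rfl⟩)]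
    ring
  have f3 : ∫ t in (0 : ℝ)..(2 * Real.pi), w t * (((7 : ℝ) • K3 + (21 : ℝ) • K5)
        (rot (-0) (rot t x)) - (0 : ℂ × ℂ →L[ℝ] ℝ) (-3 * Complex.I * (rot (-0) (rot t x)).1,
              -5 * Complex.I * (rot (-0) (rot t x)).2)) =
      7 * a3 + 21 * a5 + 0 * b3 + 0 * b5 := by
    rw [← comb]
    apply intervalIntegral.integral_congr
    intro t _
    simp only [neg_zero, rot_zero, add_apply, smul_apply, zero_apply, K3_apply, K5_apply,
      smul_eq_mul]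
    ring
  have f4 : ∫ t in (0 : ℝ)..(2 * Real.pi), w t * ((-K3 - (3 : ℝ) • K5)
        (rot (-0) (rot t x)) - (0 : ℂ × ℂ →L[ℝ] ℝ) (-3 * Complex.I * (rot (-0) (rot t x)).1,
              -5 * Complex.I * (rot (-0) (rot t x)).2)) =
      -1 * a3 + -3 * a5 + 0 * b3 + 0 * b5 := by
    rw [← comb]
    apply intervalIntegral.integral_congr
    intro t _
    simp only [neg_zero, rot_zero, sub_apply, neg_apply, smul_apply, zero_apply, K3_apply,
      K5_apply, smul_eq_mul]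
    ring
  rw [f1] at G1
  rw [f2] at G2
  rw [f3] at G3
  rw [f4] at G4
  have e3 : ∫ u in (0 : ℝ)..(2 * Real.pi), kt (rot u x) * w (u + 0) =
      ∫ t in (0 : ℝ)..(2 * Real.pi), w t * kt (rot t x) := by
    apply intervalIntegral.integral_congr
    intro t _
    simp only [add_zero]
    ring
  have e4 : ∫ u in (0 : ℝ)..(2 * Real.pi), h0 (rot u x) * w (u + 0) =
      ∫ t in (0 : ℝ)..(2 * Real.pi), w t * h0 (rot t x) := by
    apply intervalIntegral.integral_congr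
    intro t _
    simp only [add_zero]
    ring
  rw [e3] at G3
  rw [e4] at G4
  unfold lL
  obtain ⟨g1, g1'⟩ := abs_le.1 G1
  obtain ⟨g2, g2'⟩ := abs_le.1 G2
  obtain ⟨g3, g3'⟩ := abs_le.1 G3
  obtain ⟨g4, g4'⟩ := abs_le.1 G4
  rw [abs_le]
  constructor
  · linarith
  · linarith

end Pool.Agent.Helper97.LT
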